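import Pool.Agent.HV.Basic

/-!
Acyclicity of the total differential.
-/

namespace Pool.Agent.HV

open TensorProduct Module

variable {K : Type} [Field K] {A : Type} [CommRing A] [Algebra K A]
variable {X : Type} [AddCommGroup X] [Module K X]
variable {V : Type} [AddCommGroup V] [Module K V] [Module A V] [IsScalarTower K A V]
variable {V' : Type} [AddCommGroup V'] [Module K V'] [Module A V'] [IsScalarTower K A V']
variable {V'' : Type} [AddCommGroup V''] [Module K V''] [Module A V''] [IsScalarTower K A V'']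
variable {c : ℕ} (κ : Kos K A X c)
variable {W : Type} [AddCommGroup W] [Module K W] (y : Fin c → Module.End K W)

/-- every cycle is a boundary -/
def Kos.Acyc (V : Type) [AddCommGroup V] [Module K V] [Module A V] [IsScalarTower K A V] : Prop :=
  ∀ z : (V ⊗[K] X) ⊗[K] W, κ.δ y V z = 0 → ∃ w, z = κ.δ y V w

/-- the induced map -/
noncomputable abbrev ind (X W : Type) [AddCommGroup X] [Module K X] [AddCommGroup W] [Module K W]
    (g : V →ₗ[A] V') : (V ⊗[K] X) ⊗[K] W →ₗ[K] (V' ⊗[K] X) ⊗[K] W :=
  ((g.restrictScalars K).rTensor X).rTensor W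

theorem ind_inj {g : V →ₗ[A] V'} (hg : Function.Injective g) :
    Function.Injective (ind (K := K) X W g) := by
  apply Module.Flat.rTensor_preserves_injective_linearMap
  apply Module.Flat.rTensor_preserves_injective_linearMap
  exact hg

theorem ind_surj {g : V →ₗ[A] V'} (hg : Function.Surjective g) :
    Function.Surjective (ind (K := K) X W g) := by
  apply LinearMap.rTensor_surjective
  apply LinearMap.rTensor_surjective
  exact hg

theorem ind_exact {g : V →ₗ[A] V'} {h : V' →ₗ[A] V''} (hgh : Function.Exact g h) :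
    Function.Exact (ind (K := K) X W g) (ind (K := K) X W h) := by
  apply Module.Flat.rTensor_exact
  apply Module.Flat.rTensor_exact
  exact hgh

theorem ind_comp (g : V →ₗ[A] V') (h : V' →ₗ[A] V'') (z : (V ⊗[K] X) ⊗[K] W) :
    ind X W h (ind X W g z) = ind X W (h ∘ₗ g) z := by
  unfold ind
  rw [← LinearMap.comp_apply, ← LinearMap.rTensor_comp, ← LinearMap.rTensor_comp]
  rfl

theorem ind_id (z : (V ⊗[K] X) ⊗[K] W) : ind X W (LinearMap.id : V →ₗ[A] V) z = z := by
  have : (LinearMap.id : V →ₗ[A] V).restrictScalars K = LinearMap.id := rfl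
  unfold ind
  rw [this, LinearMap.rTensor_id, LinearMap.rTensor_id]
  rfl

variable {y}

theorem Kos.Acyc.retract {κ : Kos K A X c} (h : κ.Acyc y V') (i : V →ₗ[A] V') (p : V' →ₗ[A] V)
    (hpi : p ∘ₗ i = LinearMap.id) : κ.Acyc y V := by
  intro z hz
  have h1 : κ.δ y V' (ind X W i z) = 0 := by
    rw [← κ.δ_nat, hz, map_zero]
  obtain ⟨w, hw⟩ := h _ h1
  refine ⟨ind X W p w, ?_⟩
  have h2 := congrArg (ind X W p) hw
  rw [ind_comp, hpi, ind_id] at h2
  rw [h2]
  exact κ.δ_nat y p w

theorem Kos.Acyc.equiv {κ : Kos K A X c} (h : κ.Acyc y V') (e : V ≃ₗ[A] V') : κ.Acyc y V :=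
  h.retract e.toLinearMap e.symm.toLinearMap (by ext v; simp)

/-- A module is acyclic if it is the quotient of an acyclic module by an acyclic module. -/
theorem Kos.Acyc.of_exact {κ : Kos K A X c} (h1 : κ.Acyc y V) (h2 : κ.Acyc y V')
    (hsq : κ.δ y V' * κ.δ y V' = 0) {g : V →ₗ[A] V'} {h : V' →ₗ[A] V''}
    (hg : Function.Injective g) (hh : Function.Surjective h) (hgh : Function.Exact g h) :
    κ.Acyc y V'' := by
  have hsq' : ∀ z, κ.δ y V' (κ.δ y V' z) = 0 := fun z => by
    have := LinearMap.congr_fun hsq z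
    exact this
  have ex := ind_exact (K := K) (X := X) (W := W) hgh
  intro z hz
  obtain ⟨z2, rfl⟩ := ind_surj (K := K) (X := X) (W := W) hh z
  have e1 : ind X W h (κ.δ y V' z2) = 0 := (κ.δ_nat y h z2).trans hz
  obtain ⟨z1, hz1⟩ := (ex _).1 e1
  have e2 : κ.δ y V z1 = 0 := by
    apply ind_inj (K := K) (X := X) (W := W) hg
    rw [map_zero]
    have := κ.δ_nat y g z1
    rw [this]
    show κ.δ y V' (ind X W g z1) = 0
    rw [hz1, hsq']
  obtain ⟨y1, rfl⟩ := h1 _ e2
  have e3 : κ.δ y V' (z2 - ind X W g y1) = 0 := by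
    rw [map_sub, sub_eq_zero, ← hz1]
    exact κ.δ_nat y g y1
  obtain ⟨y2, hy2⟩ := h2 _ e3
  refine ⟨ind X W h y2, ?_⟩
  have e4 : ind X W h (ind X W g y1) = 0 := (ex _).2 ⟨y1, rfl⟩
  have e5 : ind X W h z2 = ind X W h (z2 - ind X W g y1) := by rw [map_sub, e4, sub_zero]
  rw [e5, hy2]
  exact κ.δ_nat y h y2

/-- The matrix factorization argument: `V = V' / f_j V'`, where `f_j` is injective on `V'`, the
other `f_i` vanish on `V'` and `y_j` is bijective. -/
theorem Kos.acyc_quot (κ : Kos K A X c) (hy : ∀ j k, y j * y k = y k * y j) (h2 : (2 : K) ≠ 0)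
    (j : Fin c) (hyj : Function.Bijective (y j)) (hf : ∀ i, i ≠ j → ∀ v : V', κ.f i • v = 0)
    (hfj : ∀ v : V', κ.f j • v = 0 → v = 0) (p : V' →ₗ[A] V) (hp : Function.Surjective p)
    (hker : ∀ v, p v = 0 → ∃ v', v = κ.f j • v') (hker' : ∀ v' : V', p (κ.f j • v') = 0) :
    κ.Acyc y V := by
  -- multiplication by `f_j`
  let m : V' →ₗ[A] V' := LinearMap.lsmul A V' (κ.f j)
  have hm : ∀ v, m v = κ.f j • v := fun v => rfl
  have minj : Function.Injective m := by
    rw [← LinearMap.ker_eq_bot, LinearMap.ker_eq_bot']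
    exact hfj
  have ex : Function.Exact m p := by
    intro v
    constructor
    · intro h
      obtain ⟨v', rfl⟩ := hker v h
      exact ⟨v', rfl⟩
    · rintro ⟨v', rfl⟩
      exact hker' v'
  have exI := ind_exact (K := K) (X := X) (W := W) ex
  have injI := ind_inj (K := K) (X := X) (W := W) minj
  -- the square of the differential on `V'`
  have hsq : ∀ z, κ.δ y V' (κ.δ y V' z) =
      ind X W m ((y j).lTensor (V' ⊗[K] X) z) := by
    intro z
    have h := LinearMap.congr_fun (κ.δ_sq (V := V') y hy h2) z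
    rw [Module.End.mul_apply] at h
    rw [h, LinearMap.sum_apply, Finset.sum_eq_single j]
    · induction z using TensorProduct.induction_on with
      | zero => simp
      | add z w hz hw =>
        rw [map_add, map_add, map_add]
        have hz' := hz (LinearMap.congr_fun (κ.δ_sq (V := V') y hy h2) z)
        have hw' := hw (LinearMap.congr_fun (κ.δ_sq (V := V') y hy h2) w)
        rw [hz', hw']
      | tmul n w =>
        rw [TensorProduct.map_tmul, LinearMap.lTensor_tmul, LinearMap.rTensor_tmul]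
        congr 1
    · intro i _ hi
      have : act V' (κ.f i ⊗ₜ[K] (1 : Module.End K X)) = 0 := by
        rw [act_tmul]
        have : Algebra.lsmul K K V' (κ.f i) = 0 := by
          ext v
          exact hf i hi v
        rw [this, TensorProduct.map_zero_left]
      rw [this, TensorProduct.map_zero_left]
      rfl
    · intro h
      exact (h (Finset.mem_univ j)).elim
  have yinj : Function.Injective ((y j).lTensor (V' ⊗[K] X)) :=
    Module.Flat.lTensor_preserves_injective_linearMap _ hyj.1
  have ysurj : Function.Surjective ((y j).lTensor (V' ⊗[K] X)) :=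
    LinearMap.lTensor_surjective _ hyj.2
  intro z hz
  obtain ⟨g, rfl⟩ := ind_surj (K := K) (X := X) (W := W) hp z
  have e1 : ind X W p (κ.δ y V' g) = 0 := (κ.δ_nat y p g).trans hz
  obtain ⟨h0, hh0⟩ := (exI _).1 e1
  obtain ⟨h, rfl⟩ := ysurj h0
  rw [← hsq] at hh0
  have e2 : κ.δ y V' (g - κ.δ y V' h) = 0 := by
    rw [map_sub, hh0, sub_self]
  have e3 : g - κ.δ y V' h = 0 := by
    apply yinj
    apply injI
    rw [← hsq, e2, map_zero, map_zero, map_zero]
  refine ⟨ind X W p h, ?_⟩
  rw [sub_eq_zero.1 e3]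
  exact κ.δ_nat y p h

end Pool.Agent.HV
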