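import Mathlib

/-!
Koszul-type operators on tensor products, and acyclicity over complete intersections.
-/

namespace Pool.Agent.HV

open TensorProduct Module

variable {K : Type} [Field K] {A : Type} [CommRing A] [Algebra K A]
variable {X : Type} [AddCommGroup X] [Module K X]

/-- The action of `A ⊗ End X` on `V ⊗ X` for an `A`-module `V`. -/
noncomputable def act (V : Type) [AddCommGroup V] [Module K V] [Module A V] [IsScalarTower K A V] :
    A ⊗[K] Module.End K X →ₐ[K] Module.End K (V ⊗[K] X) :=
  (Module.endTensorEndAlgHom (R := K) (S := K) (A := K) (M := V) (N := X)).comp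
    (Algebra.TensorProduct.map (Algebra.lsmul K K V) (AlgHom.id K (Module.End K X)))

section

variable (V : Type) [AddCommGroup V] [Module K V] [Module A V] [IsScalarTower K A V]

theorem act_tmul (a : A) (e : Module.End K X) :
    act V (a ⊗ₜ[K] e) = TensorProduct.map (Algebra.lsmul K K V a) e := rfl

theorem act_tmul_tmul (a : A) (e : Module.End K X) (v : V) (x : X) :
    act V (a ⊗ₜ[K] e) (v ⊗ₜ[K] x) = (a • v) ⊗ₜ[K] e x := rfl

end

variable {V : Type} [AddCommGroup V] [Module K V] [Module A V] [IsScalarTower K A V]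
variable {V' : Type} [AddCommGroup V'] [Module K V'] [Module A V'] [IsScalarTower K A V']

/-- naturality in the module -/
theorem act_nat (g : V →ₗ[A] V') (T : A ⊗[K] Module.End K X) (z : V ⊗[K] X) :
    (g.restrictScalars K).rTensor X (act V T z) = act V' T ((g.restrictScalars K).rTensor X z) := by
  induction T using TensorProduct.induction_on with
  | zero => simp
  | add S T hS hT => simp only [map_add, LinearMap.add_apply, hS, hT]
  | tmul a e =>
    induction z using TensorProduct.induction_on with
    | zero => simp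
    | add z w hz hw => simp only [map_add, hz, hw]
    | tmul v x =>
      rw [act_tmul_tmul, LinearMap.rTensor_tmul, LinearMap.rTensor_tmul, act_tmul_tmul]
      simp

/-- The abstract data of a Koszul complex with several homotopies. -/
structure Kos (K A X : Type) [Field K] [CommRing A] [Algebra K A] [AddCommGroup X] [Module K X]
    (c : ℕ) where
  d : A ⊗[K] Module.End K X
  D : Fin c → A ⊗[K] Module.End K X
  f : Fin c → A
  dd : d * d = 0
  DD : ∀ j, D j * D j = 0
  dD : ∀ j, d * D j + D j * d = f j ⊗ₜ[K] 1
  DD' : ∀ j k, D j * D k + D k * D j = 0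

variable {c : ℕ} (κ : Kos K A X c)
variable {W : Type} [AddCommGroup W] [Module K W] (y : Fin c → Module.End K W)
variable {W' : Type} [AddCommGroup W'] [Module K W'] (y' : Fin c → Module.End K W')

/-- The total differential on `(V ⊗ X) ⊗ W`. -/
noncomputable def Kos.δ (V : Type) [AddCommGroup V] [Module K V] [Module A V]
    [IsScalarTower K A V] : Module.End K ((V ⊗[K] X) ⊗[K] W) :=
  TensorProduct.map (act V κ.d) 1 + ∑ j, TensorProduct.map (act V (κ.D j)) (y j)

theorem Kos.δ_tmul (m : V ⊗[K] X) (w : W) :
    κ.δ y V (m ⊗ₜ[K] w) = act V κ.d m ⊗ₜ[K] w + ∑ j, act V (κ.D j) m ⊗ₜ[K] y j w := by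
  simp [Kos.δ, LinearMap.sum_apply]

theorem Kos.δ_nat (g : V →ₗ[A] V') (z : (V ⊗[K] X) ⊗[K] W) :
    ((g.restrictScalars K).rTensor X).rTensor W (κ.δ y V z) =
      κ.δ y V' (((g.restrictScalars K).rTensor X).rTensor W z) := by
  induction z using TensorProduct.induction_on with
  | zero => simp
  | add z w hz hw => simp only [map_add, hz, hw]
  | tmul m w =>
    rw [Kos.δ_tmul, LinearMap.rTensor_tmul, Kos.δ_tmul, map_add, map_sum, LinearMap.rTensor_tmul,
      act_nat]
    simp only [LinearMap.rTensor_tmul, act_nat]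

theorem Kos.δ_natW {h : W →ₗ[K] W'} (hh : ∀ j w, h (y j w) = y' j (h w))
    (z : (V ⊗[K] X) ⊗[K] W) :
    h.lTensor (V ⊗[K] X) (κ.δ y V z) = κ.δ y' V (h.lTensor (V ⊗[K] X) z) := by
  induction z using TensorProduct.induction_on with
  | zero => simp
  | add z w hz hw => simp only [map_add, hz, hw]
  | tmul m w =>
    rw [Kos.δ_tmul, LinearMap.lTensor_tmul, Kos.δ_tmul, map_add, map_sum, LinearMap.lTensor_tmul]
    simp only [LinearMap.lTensor_tmul, hh]

/-- The square of the total differential. -/
theorem Kos.δ_sq (hy : ∀ j k, y j * y k = y k * y j) (h2 : (2 : K) ≠ 0) :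
    κ.δ y V * κ.δ y V = ∑ j, TensorProduct.map (act V (κ.f j ⊗ₜ[K] (1 : Module.End K X))) (y j) := by
  have m : ∀ (a b : Module.End K (V ⊗[K] X)) (s t : Module.End K W),
      TensorProduct.map a s * TensorProduct.map b t = TensorProduct.map (a * b) (s * t) := by
    intro a b s t
    exact (TensorProduct.map_mul a b s t).symm
  unfold Kos.δ
  rw [add_mul, mul_add, mul_add, m, ← map_mul, κ.dd, map_zero, TensorProduct.map_zero_left,
    zero_add, Finset.mul_sum, Finset.sum_mul, Finset.sum_mul]
  simp only [Finset.mul_sum, m, ← map_mul, one_mul, mul_one]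
  have hz : ∑ j, ∑ k, TensorProduct.map (act V (κ.D j * κ.D k)) (y j * y k) = 0 := by
    have h : (2 : K) • ∑ j, ∑ k, TensorProduct.map (act V (κ.D j * κ.D k)) (y j * y k) = 0 := by
      rw [two_smul]
      nth_rewrite 2 [Finset.sum_comm]
      rw [← Finset.sum_add_distrib]
      refine Finset.sum_eq_zero fun j _ => ?_
      rw [← Finset.sum_add_distrib]
      refine Finset.sum_eq_zero fun k _ => ?_
      rw [hy k j, ← TensorProduct.map_add_left, ← map_add, κ.DD' j k, map_zero,
        TensorProduct.map_zero_left]
    exact (smul_eq_zero.1 h).resolve_left h2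
  rw [hz, add_zero, ← Finset.sum_add_distrib]
  refine Finset.sum_congr rfl fun j _ => ?_
  rw [← TensorProduct.map_add_left, ← map_add, κ.dD]

end Pool.Agent.HV
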