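import Pool.Agent.HV.Acyc

/-!
The chain of Laurent modules and the final diagram chase.
-/

namespace Pool.Agent.HV

open TensorProduct Module

/-- the type of a variable -/
inductive Ty | P | L | Q

/-- the allowed exponents -/
def Ty.ok : Ty → ℤ → Prop
  | .P, a => 0 ≤ a
  | .L, _ => True
  | .Q, a => a < 0

open Classical in
noncomputable instance (t : Ty) (a : ℤ) : Decidable (t.ok a) := Classical.propDecidable _

variable {c : ℕ}

/-- allowed exponent vectors -/
structure Idx (t : Fin c → Ty) where
  a : Fin c → ℤ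
  ok : ∀ i, (t i).ok (a i)

theorem Idx.ext' {t : Fin c → Ty} {x z : Idx t} (h : x.a = z.a) : x = z := by
  cases x
  cases z
  cases h
  rfl

/-- raise an exponent -/
def Idx.up {t : Fin c → Ty} (x : Idx t) (k : Fin c) (h : (t k).ok (x.a k + 1)) : Idx t where
  a := Function.update x.a k (x.a k + 1)
  ok i := by
    by_cases hi : i = k
    · subst hi
      rw [Function.update_self]
      exact h
    · rw [Function.update_of_ne hi]
      exact x.ok i

variable (K : Type) [Field K]

/-- The module of Laurent type. -/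
abbrev LW (t : Fin c → Ty) : Type := Idx t →₀ K

open Classical in
/-- multiplication by a variable -/
noncomputable def sh (t : Fin c → Ty) (k : Fin c) : Module.End K (LW K t) :=
  Finsupp.linearCombination K (fun x : Idx t =>
    if h : (t k).ok (x.a k + 1) then (Finsupp.single (x.up k h) 1 : LW K t) else 0)

open Classical in
/-- the natural map -/
noncomputable def mp (t t' : Fin c → Ty) : LW K t →ₗ[K] LW K t' :=
  Finsupp.linearCombination K (fun x : Idx t =>
    if h : ∀ i, (t' i).ok (x.a i) then (Finsupp.single ⟨x.a, h⟩ 1 : LW K t') else 0)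

variable {K}

theorem sh_pos {t : Fin c → Ty} {k : Fin c} {x : Idx t} (h : (t k).ok (x.a k + 1)) :
    sh K t k (Finsupp.single x 1) = Finsupp.single (x.up k h) 1 := by
  unfold sh
  rw [Finsupp.linearCombination_single, one_smul, dif_pos h]

theorem sh_neg {t : Fin c → Ty} {k : Fin c} {x : Idx t} (h : ¬ (t k).ok (x.a k + 1)) :
    sh K t k (Finsupp.single x 1) = 0 := by
  unfold sh
  rw [Finsupp.linearCombination_single, one_smul, dif_neg h]

theorem mp_pos {t t' : Fin c → Ty} {x : Idx t} (h : ∀ i, (t' i).ok (x.a i)) :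
    mp K t t' (Finsupp.single x 1) = Finsupp.single ⟨x.a, h⟩ 1 := by
  unfold mp
  rw [Finsupp.linearCombination_single, one_smul, dif_pos h]

theorem mp_neg {t t' : Fin c → Ty} {x : Idx t} (h : ¬ ∀ i, (t' i).ok (x.a i)) :
    mp K t t' (Finsupp.single x 1) = 0 := by
  unfold mp
  rw [Finsupp.linearCombination_single, one_smul, dif_neg h]

theorem sh_comm (t : Fin c → Ty) (k l : Fin c) : sh K t k * sh K t l = sh K t l * sh K t k := by
  by_cases hkl : k = l
  · rw [hkl]
  apply Finsupp.lhom_ext'
  intro x
  apply LinearMap.ext_ring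
  rw [LinearMap.comp_apply, LinearMap.comp_apply, Finsupp.lsingle_apply, Module.End.mul_apply,
    Module.End.mul_apply]
  by_cases h1 : (t k).ok (x.a k + 1)
  · by_cases h2 : (t l).ok (x.a l + 1)
    · have h3 : (t k).ok ((x.up l h2).a k + 1) := by
        show (t k).ok (Function.update x.a l (x.a l + 1) k + 1)
        rw [Function.update_of_ne hkl]
        exact h1
      have h4 : (t l).ok ((x.up k h1).a l + 1) := by
        show (t l).ok (Function.update x.a k (x.a k + 1) l + 1)
        rw [Function.update_of_ne (Ne.symm hkl)]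
        exact h2
      rw [sh_pos h1, sh_pos h2, sh_pos h3, sh_pos h4]
      congr 1
      apply Idx.ext'
      show Function.update (Function.update x.a l (x.a l + 1)) k
        (Function.update x.a l (x.a l + 1) k + 1) =
        Function.update (Function.update x.a k (x.a k + 1)) l
        (Function.update x.a k (x.a k + 1) l + 1)
      rw [Function.update_of_ne hkl, Function.update_of_ne (Ne.symm hkl),
        Function.update_comm hkl]
    · rw [sh_neg h2, map_zero, sh_pos h1, sh_neg]
      show ¬ (t l).ok (Function.update x.a k (x.a k + 1) l + 1)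
      rw [Function.update_of_ne (Ne.symm hkl)]
      exact h2
  · by_cases h2 : (t l).ok (x.a l + 1)
    · rw [sh_neg h1, map_zero, sh_pos h2, sh_neg]
      show ¬ (t k).ok (Function.update x.a l (x.a l + 1) k + 1)
      rw [Function.update_of_ne hkl]
      exact h1
    · rw [sh_neg h1, sh_neg h2, map_zero, map_zero]

/-- compatibility of types -/
def Comp (t t' : Ty) : Prop :=
  ∀ x : ℤ, t.ok x → ((t.ok (x + 1) ∧ t'.ok (x + 1)) ↔ (t'.ok x ∧ t'.ok (x + 1)))

theorem comp_refl (t : Ty) : Comp t t := fun x hx => by tauto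

theorem comp_PL : Comp .P .L := fun x hx => by
  simp only [Ty.ok] at *
  constructor
  · intro _; trivial
  · intro _; exact ⟨by omega, trivial⟩

theorem comp_LQ : Comp .L .Q := fun x hx => by
  simp only [Ty.ok] at *
  constructor
  · intro h; omega
  · intro h; exact ⟨trivial, h.2⟩

theorem mp_sh {t t' : Fin c → Ty} (hc : ∀ i, Comp (t i) (t' i)) (k : Fin c) (w : LW K t) :
    mp K t t' (sh K t k w) = sh K t' k (mp K t t' w) := by
  have : mp K t t' ∘ₗ sh K t k = sh K t' k ∘ₗ mp K t t' := by
    apply Finsupp.lhom_ext'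
    intro x
    apply LinearMap.ext_ring
    simp only [LinearMap.comp_apply, Finsupp.lsingle_apply]
    have hk := hc k (x.a k) (x.ok k)
    by_cases hall : ∀ i, i ≠ k → (t' i).ok (x.a i)
    · by_cases hb : (t k).ok (x.a k + 1) ∧ (t' k).ok (x.a k + 1)
      · obtain ⟨hb1, hb2⟩ := hb
        have hb3 := (hk.1 ⟨hb1, hb2⟩).1
        have hx : ∀ i, (t' i).ok (x.a i) := fun i => by
          by_cases hi : i = k
          · rw [hi]; exact hb3
          · exact hall i hi
        have hx' : ∀ i, (t' i).ok ((x.up k hb1).a i) := fun i => by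
          show (t' i).ok (Function.update x.a k (x.a k + 1) i)
          by_cases hi : i = k
          · subst hi
            rw [Function.update_self]
            exact hb2
          · rw [Function.update_of_ne hi]
            exact hall i hi
        rw [sh_pos hb1, mp_pos hx, mp_pos hx', sh_pos (x := ⟨x.a, hx⟩) hb2]
        rfl
      · have hb' : ¬ ((t' k).ok (x.a k) ∧ (t' k).ok (x.a k + 1)) := fun h => hb (hk.2 h)
        have e1 : mp K t t' (sh K t k (Finsupp.single x 1)) = 0 := by
          by_cases hb1 : (t k).ok (x.a k + 1)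
          · rw [sh_pos hb1, mp_neg]
            intro h
            apply hb
            refine ⟨hb1, ?_⟩
            have := h k
            change (t' k).ok (Function.update x.a k (x.a k + 1) k) at this
            rw [Function.update_self] at this
            exact this
          · rw [sh_neg hb1, map_zero]
        rw [e1]
        by_cases hx : ∀ i, (t' i).ok (x.a i)
        · rw [mp_pos hx, sh_neg]
          intro h
          exact hb' ⟨hx k, h⟩
        · rw [mp_neg hx, map_zero]
    · push Not at hall
      obtain ⟨i, hik, hi⟩ := hall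
      have hx : ¬ ∀ i, (t' i).ok (x.a i) := fun h => hi (h i)
      rw [mp_neg hx, map_zero]
      by_cases hb1 : (t k).ok (x.a k + 1)
      · rw [sh_pos hb1, mp_neg]
        intro h
        apply hi
        have := h i
        change (t' i).ok (Function.update x.a k (x.a k + 1) i) at this
        rw [Function.update_of_ne hik] at this
        exact this
      · rw [sh_neg hb1, map_zero]
  exact LinearMap.congr_fun this w

/-- lower an exponent -/
def Idx.down {t : Fin c → Ty} (x : Idx t) (k : Fin c) (h : t k = .L) : Idx t where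
  a := Function.update x.a k (x.a k - 1)
  ok i := by
    by_cases hi : i = k
    · subst hi
      rw [h]
      trivial
    · rw [Function.update_of_ne hi]
      exact x.ok i

theorem sh_bij {t : Fin c → Ty} {k : Fin c} (h : t k = .L) : Function.Bijective (sh K t k) := by
  have hok : ∀ a, (t k).ok a := fun a => by rw [h]; trivial
  let g : LW K t →ₗ[K] LW K t := Finsupp.linearCombination K (fun x : Idx t =>
    (Finsupp.single (x.down k h) 1 : LW K t))
  have hg : ∀ x : Idx t, g (Finsupp.single x 1) = Finsupp.single (x.down k h) 1 := fun x => by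
    show Finsupp.linearCombination K _ _ = _
    rw [Finsupp.linearCombination_single, one_smul]
  have e1 : g ∘ₗ sh K t k = LinearMap.id := by
    apply Finsupp.lhom_ext'
    intro x
    apply LinearMap.ext_ring
    rw [LinearMap.comp_apply, LinearMap.comp_apply, Finsupp.lsingle_apply, LinearMap.comp_apply,
      sh_pos (hok _), hg]
    congr 1
    apply Idx.ext'
    show Function.update (Function.update x.a k (x.a k + 1)) k
      (Function.update x.a k (x.a k + 1) k - 1) = x.a
    rw [Function.update_self, Function.update_idem, add_sub_cancel_right, Function.update_eq_self]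
  have e2 : sh K t k ∘ₗ g = LinearMap.id := by
    apply Finsupp.lhom_ext'
    intro x
    apply LinearMap.ext_ring
    rw [LinearMap.comp_apply, LinearMap.comp_apply, Finsupp.lsingle_apply, LinearMap.comp_apply,
      hg, sh_pos (hok _)]
    congr 1
    apply Idx.ext'
    show Function.update (Function.update x.a k (x.a k - 1)) k
      (Function.update x.a k (x.a k - 1) k + 1) = x.a
    rw [Function.update_self, Function.update_idem, sub_add_cancel, Function.update_eq_self]
  constructor
  · intro a b hab
    have := congrArg g hab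
    have ea := LinearMap.congr_fun e1 a
    have eb := LinearMap.congr_fun e1 b
    rw [LinearMap.comp_apply, LinearMap.id_apply] at ea eb
    rw [← ea, ← eb, this]
  · intro b
    exact ⟨g b, LinearMap.congr_fun e2 b⟩

/-! ### The chain -/

/-- the types of `U_j` -/
def tU (c j : ℕ) : Fin c → Ty := fun i => if (i : ℕ) < j then .Q else .P

/-- the types of `W_j` -/
def tW (c j : ℕ) : Fin c → Ty := fun i => if (i : ℕ) < j then .Q else if (i : ℕ) = j then .L else .P

/-- the element `u_j` -/
def uI (c j : ℕ) : Idx (tU c j) where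
  a i := if (i : ℕ) < j then -1 else 0
  ok i := by
    unfold tU
    by_cases h : (i : ℕ) < j
    · simp only [if_pos h, Ty.ok]; norm_num
    · simp only [if_neg h, Ty.ok]; norm_num

/-- the element `w_j` -/
def wI (c j : ℕ) : Idx (tW c j) where
  a i := if (i : ℕ) < j + 1 then -1 else 0
  ok i := by
    unfold tW
    by_cases h : (i : ℕ) < j
    · simp only [if_pos h, if_pos (show (i : ℕ) < j + 1 by omega), Ty.ok]; norm_num
    · by_cases h' : (i : ℕ) = j
      · simp only [if_neg h, if_pos h', Ty.ok]
      · simp only [if_neg h, if_neg h', if_neg (show ¬ (i : ℕ) < j + 1 by omega), Ty.ok]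
        norm_num

theorem comp_UW (c j : ℕ) (i : Fin c) : Comp (tU c j i) (tW c j i) := by
  unfold tU tW
  split_ifs
  · exact comp_refl _
  · exact comp_PL
  · exact comp_refl _

theorem comp_WU (c j : ℕ) (i : Fin c) : Comp (tW c j i) (tU c (j + 1) i) := by
  unfold tU tW
  by_cases h : (i : ℕ) < j
  · rw [if_pos h, if_pos (by omega)]
    exact comp_refl _
  · by_cases h' : (i : ℕ) = j
    · rw [if_neg h, if_pos h', if_pos (by omega)]
      exact comp_LQ
    · rw [if_neg h, if_neg h', if_neg (by omega)]
      exact comp_refl _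

theorem mp_mp (j : Fin c) (w : LW K (tU c j)) :
    mp K (tW c j) (tU c (j + 1)) (mp K (tU c j) (tW c j) w) = 0 := by
  have : mp K (tW c j) (tU c (j + 1)) ∘ₗ mp K (tU c j) (tW c j) = 0 := by
    apply Finsupp.lhom_ext'
    intro x
    apply LinearMap.ext_ring
    rw [LinearMap.comp_apply, LinearMap.comp_apply, Finsupp.lsingle_apply]
    by_cases hx : ∀ i, (tW c j i).ok (x.a i)
    · rw [mp_pos hx, mp_neg]
      · rfl
      · intro h
        have h1 := h j
        have h2 := x.ok j
        unfold tU at h1 h2
        rw [if_pos (by omega)] at h1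
        rw [if_neg (lt_irrefl _)] at h2
        simp only [Ty.ok] at h1 h2
        omega
    · rw [mp_neg hx, map_zero]
      rfl
  exact LinearMap.congr_fun this w

theorem mp_w (j : ℕ) : mp K (tW c j) (tU c (j + 1)) (Finsupp.single (wI c j) 1) =
    Finsupp.single (uI c (j + 1)) 1 := by
  rw [mp_pos (x := wI c j) (t' := tU c (j + 1)) (fun i => (uI c (j + 1)).ok i)]
  rfl

theorem sh_w (j : Fin c) : sh K (tW c j) j (Finsupp.single (wI c j) 1) =
    mp K (tU c j) (tW c j) (Finsupp.single (uI c j) 1) := by
  have h1 : (tW c j j).ok ((wI c j).a j + 1) := by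
    unfold tW
    rw [if_neg (lt_irrefl _), if_pos rfl]
    trivial
  have h2 : ∀ i, (tW c j i).ok ((uI c j).a i) := by
    intro i
    unfold tW uI
    by_cases h : (i : ℕ) < j
    · simp only [if_pos h, Ty.ok]; norm_num
    · by_cases h' : (i : ℕ) = j
      · simp only [if_neg h, if_pos h', Ty.ok]
      · simp only [if_neg h, if_neg h', Ty.ok]; norm_num
  rw [sh_pos h1, mp_pos h2]
  congr 1
  apply Idx.ext'
  show Function.update (wI c j).a j ((wI c j).a j + 1) = (uI c j).a
  funext i
  by_cases hi : i = j
  · subst hi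
    rw [Function.update_self]
    simp [wI, uI]
  · rw [Function.update_of_ne hi]
    have hi' : (i : ℕ) ≠ j := fun h => hi (Fin.ext h)
    simp only [wI, uI]
    by_cases h : (i : ℕ) < j
    · rw [if_pos h, if_pos (by omega)]
    · rw [if_neg h, if_neg (by omega)]

theorem sh_w_zero (j : ℕ) (k : Fin c) (hk : (k : ℕ) < j) :
    sh K (tW c j) k (Finsupp.single (wI c j) 1) = 0 := by
  rw [sh_neg]
  unfold tW wI
  simp only [if_pos hk, if_pos (show (k : ℕ) < j + 1 by omega), Ty.ok]
  norm_num

variable {A : Type} [CommRing A] [Algebra K A]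
variable {X : Type} [AddCommGroup X] [Module K X]
variable {V : Type} [AddCommGroup V] [Module K V] [Module A V] [IsScalarTower K A V]
variable (κ : Kos K A X c)

/-- The chain argument. -/
theorem Kos.chain
    (hac : ∀ (j : Fin c) (W : Type) [AddCommGroup W] [Module K W] (y : Fin c → Module.End K W),
      (∀ k l, y k * y l = y l * y k) → Function.Bijective (y j) → κ.Acyc y V)
    (ψ : ℕ → V ⊗[K] X) (hψ : ∀ j : Fin c, act V (κ.D j) (ψ (j + 1)) = ψ j)
    (hψ' : ∀ (k : Fin c) (i : ℕ), i ≤ k → act V (κ.D k) (ψ i) = 0)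
    (hd : ∀ i, i ≤ c → act V κ.d (ψ i) = 0) (h0 : ψ 0 = 0) :
    ∀ j : ℕ, j ≤ c → ∃ η, ψ j ⊗ₜ[K] (Finsupp.single (uI c j) 1 : LW K (tU c j)) =
      κ.δ (sh K (tU c j)) V η := by
  intro j
  induction j with
  | zero =>
    intro _
    exact ⟨0, by rw [h0, TensorProduct.zero_tmul, map_zero]⟩
  | succ j ih =>
    intro hj
    obtain ⟨η, hη⟩ := ih (by omega)
    set J : Fin c := ⟨j, by omega⟩ with hJ
    -- the cycle in `W_j`
    have e1 : κ.δ (sh K (tW c j)) V
        (ψ (j + 1) ⊗ₜ[K] (Finsupp.single (wI c j) 1 : LW K (tW c j))) =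
        ψ j ⊗ₜ[K] mp K (tU c j) (tW c j) (Finsupp.single (uI c j) 1) := by
      rw [Kos.δ_tmul, hd _ hj, TensorProduct.zero_tmul, zero_add, Finset.sum_eq_single J]
      · have := hψ J
        have h2 := sh_w (K := K) J
        change act V (κ.D J) (ψ (j + 1)) = ψ j at this
        change sh K (tW c j) J (Finsupp.single (wI c j) 1) =
          mp K (tU c j) (tW c j) (Finsupp.single (uI c j) 1) at h2
        rw [this, h2]
      · intro k _ hk
        have hk' : (k : ℕ) ≠ j := fun h => hk (Fin.ext h)
        rcases lt_or_gt_of_ne hk' with h | h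
        · rw [sh_w_zero j k h, TensorProduct.tmul_zero]
        · rw [hψ' k (j + 1) (by omega), TensorProduct.zero_tmul]
      · intro h
        exact (h (Finset.mem_univ _)).elim
    have e2 : κ.δ (sh K (tW c j)) V ((mp K (tU c j) (tW c j)).lTensor (V ⊗[K] X) η) =
        ψ j ⊗ₜ[K] mp K (tU c j) (tW c j) (Finsupp.single (uI c j) 1) := by
      rw [← κ.δ_natW (sh K (tU c j)) (sh K (tW c j)) (fun k w => mp_sh (comp_UW c j) k w), ← hη,
        LinearMap.lTensor_tmul]
    have e3 : κ.δ (sh K (tW c j)) V
        (ψ (j + 1) ⊗ₜ[K] (Finsupp.single (wI c j) 1 : LW K (tW c j)) -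
          (mp K (tU c j) (tW c j)).lTensor (V ⊗[K] X) η) = 0 := by
      rw [map_sub, e1, e2, sub_self]
    have hL : tW c j J = .L := by
      unfold tW
      rw [if_neg (lt_irrefl _), if_pos rfl]
    obtain ⟨γ, hγ⟩ := hac J (LW K (tW c j)) (sh K (tW c j)) (sh_comm _) (sh_bij hL) _ e3
    refine ⟨(mp K (tW c j) (tU c (j + 1))).lTensor (V ⊗[K] X) γ, ?_⟩
    have e4 := congrArg ((mp K (tW c j) (tU c (j + 1))).lTensor (V ⊗[K] X)) hγ
    rw [κ.δ_natW (sh K (tW c j)) (sh K (tU c (j + 1))) (fun k w => mp_sh (comp_WU c j) k w),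
      map_sub, LinearMap.lTensor_tmul, mp_w] at e4
    rw [← e4]
    have e5 : (mp K (tW c j) (tU c (j + 1))).lTensor (V ⊗[K] X)
        ((mp K (tU c j) (tW c j)).lTensor (V ⊗[K] X) η) = 0 := by
      rw [← LinearMap.comp_apply, ← LinearMap.lTensor_comp]
      have : mp K (tW c j) (tU c (j + 1)) ∘ₗ mp K (tU c j) (tW c j) = 0 := by
        apply LinearMap.ext
        intro w
        exact mp_mp J w
      rw [this, LinearMap.lTensor_zero]
      rfl
    rw [e5, sub_zero]

/-- The conclusion of the chain argument. -/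
theorem Kos.final
    (hac : ∀ (j : Fin c) (W : Type) [AddCommGroup W] [Module K W] (y : Fin c → Module.End K W),
      (∀ k l, y k * y l = y l * y k) → Function.Bijective (y j) → κ.Acyc y V)
    (ψ : ℕ → V ⊗[K] X) (hψ : ∀ j : Fin c, act V (κ.D j) (ψ (j + 1)) = ψ j)
    (hψ' : ∀ (k : Fin c) (i : ℕ), i ≤ k → act V (κ.D k) (ψ i) = 0)
    (hd : ∀ i, i ≤ c → act V κ.d (ψ i) = 0) (h0 : ψ 0 = 0)
    (ℓ : V ⊗[K] X →ₗ[K] K) (hℓ : ∀ z, ℓ (act V κ.d z) = 0)
    (hℓ' : ∀ j z, ℓ (act V (κ.D j) z) = 0) : ℓ (ψ c) = 0 := by
  obtain ⟨η, hη⟩ := κ.chain hac ψ hψ hψ' hd h0 c le_rfl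
  let Λ : (V ⊗[K] X) ⊗[K] LW K (tU c c) →ₗ[K] K ⊗[K] K :=
    TensorProduct.map ℓ (Finsupp.lapply (uI c c))
  have h1 : ∀ z, Λ (κ.δ (sh K (tU c c)) V z) = 0 := by
    intro z
    induction z using TensorProduct.induction_on with
    | zero => simp
    | add z w hz hw => rw [map_add, map_add, hz, hw, add_zero]
    | tmul m w =>
      rw [Kos.δ_tmul, map_add, map_sum]
      show TensorProduct.map ℓ (Finsupp.lapply (uI c c)) _ + ∑ j, TensorProduct.map ℓ
        (Finsupp.lapply (uI c c)) _ = 0
      simp only [TensorProduct.map_tmul, hℓ, hℓ', TensorProduct.zero_tmul, Finset.sum_const_zero,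
        add_zero]
  have h2 := congrArg Λ hη
  rw [h1] at h2
  have h3 : Λ (ψ c ⊗ₜ[K] (Finsupp.single (uI c c) 1 : LW K (tU c c))) = ℓ (ψ c) ⊗ₜ[K] (1 : K) := by
    show TensorProduct.map ℓ (Finsupp.lapply (uI c c)) _ = _
    rw [TensorProduct.map_tmul, Finsupp.lapply_apply, Finsupp.single_eq_same]
  rw [h3] at h2
  have h4 := congrArg (TensorProduct.lid K K) h2
  rw [TensorProduct.lid_tmul, map_zero, smul_eq_mul, mul_one] at h4
  exact h4

end Pool.Agent.HV
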