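import Mathlib

/-!
Coefficient subfields of local rings essentially of finite type.
-/

namespace Pool.Agent.HV

open IsLocalRing

open scoped IntermediateField.algebraAdjoinAdjoin in
/-- A local ring essentially of finite type over a field contains a field over which its residue
field is finite. -/
theorem exists_coeff (k A : Type) [Field k] [CommRing A] [IsLocalRing A] [Algebra k A]
    [Algebra.EssFiniteType k A] :
    ∃ (K : Type) (_ : Field K) (_ : Algebra k K) (_ : Algebra K A) (_ : IsScalarTower k K A),
      Module.Finite K (A ⧸ maximalIdeal A) := by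
  let κ := ResidueField A
  obtain ⟨s, hs⟩ := exists_isTranscendenceBasis k κ
  choose t ht using fun i : s => residue_surjective (R := A) (i : κ)
  let K := IntermediateField.adjoin k (Set.range ((↑) : s → κ))
  have hE : Algebra.EssFiniteType k κ := .comp k A κ
  have hE' : Algebra.EssFiniteType K κ := .of_comp k K κ
  have hA : Algebra.IsAlgebraic K κ := hs.isAlgebraic_field
  have hfin : Module.Finite K κ := Algebra.finite_of_essFiniteType_of_isAlgebraic
  -- the map from the polynomial subring
  let φ : Algebra.adjoin k (Set.range ((↑) : s → κ)) →ₐ[k] A :=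
    (MvPolynomial.aeval t).comp hs.1.aevalEquiv.symm.toAlgHom
  have hφ : ∀ z, residue A (φ z) = (z : κ) := by
    intro z
    obtain ⟨p, rfl⟩ := hs.1.aevalEquiv.surjective z
    show residue A (MvPolynomial.aeval t (hs.1.aevalEquiv.symm (hs.1.aevalEquiv p))) = _
    rw [AlgEquiv.symm_apply_apply]
    have h1 : (hs.1.aevalEquiv p : κ) = MvPolynomial.aeval ((↑) : s → κ) p :=
      hs.1.algebraMap_aevalEquiv p
    rw [h1]
    have h2 : (fun i => residue A (t i)) = ((↑) : s → κ) := funext ht
    rw [← h2]
    have h3 := AlgHom.congr_fun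
      (MvPolynomial.comp_aeval (f := t) (IsScalarTower.toAlgHom k A κ)) p
    exact h3
  have hunit : ∀ y : nonZeroDivisors (Algebra.adjoin k (Set.range ((↑) : s → κ))),
      IsUnit ((φ : Algebra.adjoin k (Set.range ((↑) : s → κ)) →+* A) y) := by
    intro y
    by_contra h
    have h1 : φ (y : Algebra.adjoin k (Set.range ((↑) : s → κ))) ∈ maximalIdeal A := h
    rw [← residue_eq_zero_iff, hφ] at h1
    exact nonZeroDivisors.coe_ne_zero y (Subtype.ext h1)
  let σ : K →+* A := IsLocalization.lift
    (M := nonZeroDivisors (Algebra.adjoin k (Set.range ((↑) : s → κ)))) hunit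
  have hσ : ∀ z : Algebra.adjoin k (Set.range ((↑) : s → κ)), σ (algebraMap _ K z) = φ z :=
    fun z => IsLocalization.lift_eq hunit z
  have hσk : ∀ c : k, σ (algebraMap k K c) = algebraMap k A c := by
    intro c
    rw [IsScalarTower.algebraMap_apply k (Algebra.adjoin k (Set.range ((↑) : s → κ))) K, hσ,
      AlgHom.commutes]
  have hσκ : (residue A).comp σ = algebraMap K κ := by
    apply IsLocalization.ringHom_ext (nonZeroDivisors (Algebra.adjoin k (Set.range ((↑) : s → κ))))
    ext z
    show residue A (σ (algebraMap _ K z)) = _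
    rw [hσ, hφ]
    rfl
  let _ : Algebra K A := σ.toAlgebra
  refine ⟨K, inferInstance, inferInstance, inferInstance,
    IsScalarTower.of_algebraMap_eq fun c => (hσk c).symm, ?_⟩
  -- finiteness
  have hfin' : (algebraMap K κ).Finite := RingHom.finite_algebraMap.2 hfin
  rw [← hσκ] at hfin'
  have : ((Ideal.Quotient.mk (maximalIdeal A)).comp σ).Finite := hfin'
  exact this

end Pool.Agent.HV
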