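import Mathlib

/-!
Derivations of a quotient of a localized polynomial ring.
-/

namespace Pool.Agent.HV

open TensorProduct Module

section

variable {k : Type} [Field k] {n : ℕ}

/-- chain rule -/
theorem der_poly {M : Type} [AddCommGroup M] [Module k M] [Module (MvPolynomial (Fin n) k) M]
    [IsScalarTower k (MvPolynomial (Fin n) k) M] (d : Derivation k (MvPolynomial (Fin n) k) M)
    (g : MvPolynomial (Fin n) k) :
    d g = ∑ i, MvPolynomial.pderiv i g • d (MvPolynomial.X i) := by
  classical
  induction g using MvPolynomial.induction_on with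
  | C a =>
    have h : (MvPolynomial.C a : MvPolynomial (Fin n) k) = algebraMap k _ a := rfl
    rw [h, Derivation.map_algebraMap]
    simp
  | add p q hp hq =>
    rw [map_add, hp, hq, ← Finset.sum_add_distrib]
    refine Finset.sum_congr rfl fun i _ => ?_
    rw [map_add, add_smul]
  | mul_X p j hp =>
    rw [Derivation.leibniz, hp]
    simp only [Derivation.leibniz, MvPolynomial.pderiv_X, smul_eq_mul, add_smul,
      Finset.sum_add_distrib, mul_smul]
    have e : ∑ i, p • (Pi.single i 1 : Fin n → MvPolynomial (Fin n) k) j • d (MvPolynomial.X i) =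
        p • d (MvPolynomial.X j) := by
      rw [Finset.sum_eq_single j, Pi.single_eq_same, one_smul]
      · intro i _ hi
        rw [Pi.single_eq_of_ne (Ne.symm hi), zero_smul, smul_zero]
      · intro h
        exact (h (Finset.mem_univ j)).elim
    rw [e, Finset.smul_sum]

variable {A : Type} [CommRing A] [Algebra (MvPolynomial (Fin n) k) A] [Algebra k A]
  [IsScalarTower k (MvPolynomial (Fin n) k) A]

/-- Derivations of a localization with given values on the variables. -/
theorem exists_der (M : Submonoid (MvPolynomial (Fin n) k)) [IsLocalization M A] (a : Fin n → A) :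
    ∃ d : Derivation k A A, ∀ i, d (algebraMap (MvPolynomial (Fin n) k) A (MvPolynomial.X i)) = a i := by
  have : Algebra.FormallyEtale (MvPolynomial (Fin n) k) A := Algebra.FormallyEtale.of_isLocalization M
  let d0 : Derivation k (MvPolynomial (Fin n) k) A := MvPolynomial.mkDerivation k a
  let l0 : Ω[MvPolynomial (Fin n) k⁄k] →ₗ[MvPolynomial (Fin n) k] A := d0.liftKaehlerDifferential
  let l1 : A ⊗[MvPolynomial (Fin n) k] Ω[MvPolynomial (Fin n) k⁄k] →ₗ[A] A := l0.liftBaseChange A
  let l2 : Ω[A⁄k] →ₗ[A] A := l1 ∘ₗ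
    (KaehlerDifferential.tensorKaehlerEquivOfFormallyEtale k (MvPolynomial (Fin n) k) A).symm.toLinearMap
  refine ⟨l2.compDer (KaehlerDifferential.D k A), fun i => ?_⟩
  show l1 ((KaehlerDifferential.tensorKaehlerEquivOfFormallyEtale k (MvPolynomial (Fin n) k) A).symm
    (KaehlerDifferential.D k A (algebraMap (MvPolynomial (Fin n) k) A (MvPolynomial.X i)))) = a i
  rw [KaehlerDifferential.tensorKaehlerEquivOfFormallyEtale_symm_D_algebraMap,
    LinearMap.liftBaseChange_tmul, one_smul]
  show d0.liftKaehlerDifferential (KaehlerDifferential.D k _ (MvPolynomial.X i)) = a i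
  rw [Derivation.liftKaehlerDifferential_comp_D]
  exact MvPolynomial.mkDerivation_X k a i

variable {c : ℕ} (g : Fin c → MvPolynomial (Fin n) k) (I : Ideal A)

/-- the Jacobian matrix -/
noncomputable def jmat : Matrix (Fin c) (Fin n) (A ⧸ I) :=
  Matrix.of fun j i => algebraMap (MvPolynomial (Fin n) k) (A ⧸ I) (MvPolynomial.pderiv i (g j))

/-- the Jacobian map -/
noncomputable def jac : (Fin n → A ⧸ I) →ₗ[A ⧸ I] (Fin c → A ⧸ I) := (jmat g I).mulVecLin

omit [Algebra k A] [IsScalarTower k (MvPolynomial (Fin n) k) A] in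
theorem jac_apply (a : Fin n → A ⧸ I) (j : Fin c) : jac g I a j =
    ∑ i, algebraMap (MvPolynomial (Fin n) k) (A ⧸ I) (MvPolynomial.pderiv i (g j)) * a i := rfl

variable {g I}

theorem der_quot (hI : I = Ideal.span (Set.range fun j => algebraMap (MvPolynomial (Fin n) k) A (g j)))
    (d : Derivation k (A ⧸ I) (A ⧸ I)) (j : Fin c) :
    ∑ i, algebraMap (MvPolynomial (Fin n) k) (A ⧸ I) (MvPolynomial.pderiv i (g j)) *
      d (algebraMap (MvPolynomial (Fin n) k) (A ⧸ I) (MvPolynomial.X i)) = 0 := by
  have h := der_poly (d.compAlgebraMap (MvPolynomial (Fin n) k)) (g j)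
  have h0 : algebraMap (MvPolynomial (Fin n) k) (A ⧸ I) (g j) = 0 := by
    show Ideal.Quotient.mk I (algebraMap (MvPolynomial (Fin n) k) A (g j)) = 0
    rw [Ideal.Quotient.eq_zero_iff_mem, hI]
    exact Ideal.subset_span ⟨j, rfl⟩
  have h1 : d.compAlgebraMap (MvPolynomial (Fin n) k) (g j) = 0 := by
    show d (algebraMap (MvPolynomial (Fin n) k) (A ⧸ I) (g j)) = 0
    rw [h0, map_zero]
  rw [h1] at h
  rw [h]
  refine Finset.sum_congr rfl fun i _ => ?_
  rw [Algebra.smul_def]
  rfl

/-- The derivations of the quotient are the kernel of the Jacobian map. -/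
theorem exists_derEquiv (M : Submonoid (MvPolynomial (Fin n) k)) [IsLocalization M A]
    (hI : I = Ideal.span (Set.range fun j => algebraMap (MvPolynomial (Fin n) k) A (g j))) :
    Nonempty (Derivation k (A ⧸ I) (A ⧸ I) ≃ₗ[A ⧸ I] LinearMap.ker (jac g I)) := by
  let φ : Derivation k (A ⧸ I) (A ⧸ I) →ₗ[A ⧸ I] LinearMap.ker (jac g I) :=
    { toFun := fun d => ⟨fun i => d (algebraMap (MvPolynomial (Fin n) k) (A ⧸ I) (MvPolynomial.X i)), by
        rw [LinearMap.mem_ker]
        funext j
        rw [jac_apply]
        exact der_quot hI d j⟩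
      map_add' := fun d d' => rfl
      map_smul' := fun a d => rfl }
  refine ⟨LinearEquiv.ofBijective φ ⟨?_, ?_⟩⟩
  · rw [← LinearMap.ker_eq_bot, LinearMap.ker_eq_bot']
    intro d hd
    have hd' : ∀ i, d (algebraMap (MvPolynomial (Fin n) k) (A ⧸ I) (MvPolynomial.X i)) = 0 := fun i => by
      have := congrArg Subtype.val hd
      exact congrFun this i
    have hp : ∀ p : MvPolynomial (Fin n) k, d (algebraMap (MvPolynomial (Fin n) k) (A ⧸ I) p) = 0 := by
      intro p
      have h := der_poly (d.compAlgebraMap (MvPolynomial (Fin n) k)) p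
      have h1 : d.compAlgebraMap (MvPolynomial (Fin n) k) p = d (algebraMap (MvPolynomial (Fin n) k) (A ⧸ I) p) := rfl
      rw [← h1, h]
      refine Finset.sum_eq_zero fun i _ => ?_
      have h2 : d.compAlgebraMap (MvPolynomial (Fin n) k) (MvPolynomial.X i) =
        d (algebraMap (MvPolynomial (Fin n) k) (A ⧸ I) (MvPolynomial.X i)) := rfl
      rw [h2, hd', smul_zero]
    ext r
    rw [Derivation.zero_apply]
    obtain ⟨a, rfl⟩ := Ideal.Quotient.mk_surjective r
    obtain ⟨⟨p, s⟩, hps⟩ := IsLocalization.surj M a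
    simp only at hps
    have h1 : Ideal.Quotient.mk I a * algebraMap (MvPolynomial (Fin n) k) (A ⧸ I) (s : MvPolynomial (Fin n) k) =
        algebraMap (MvPolynomial (Fin n) k) (A ⧸ I) p := by
      have := congrArg (Ideal.Quotient.mk I) hps
      rw [map_mul] at this
      exact this
    have h2 := congrArg d h1
    rw [Derivation.leibniz, hp, hp, smul_zero, zero_add, smul_eq_mul] at h2
    have hu : IsUnit (algebraMap (MvPolynomial (Fin n) k) (A ⧸ I) s) := by
      have := (IsLocalization.map_units A s).map (Ideal.Quotient.mk I)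
      exact this
    exact (hu.mul_right_eq_zero).1 h2
  · rintro ⟨a, ha⟩
    rw [LinearMap.mem_ker] at ha
    choose b hb using fun i => Ideal.Quotient.mk_surjective (I := I) (a i)
    obtain ⟨d, hd⟩ := exists_der (A := A) M b
    have hdg : ∀ j, Ideal.Quotient.mk I (d (algebraMap (MvPolynomial (Fin n) k) A (g j))) = 0 := by
      intro j
      have h := der_poly (d.compAlgebraMap (MvPolynomial (Fin n) k)) (g j)
      have h1 : d.compAlgebraMap (MvPolynomial (Fin n) k) (g j) = d (algebraMap (MvPolynomial (Fin n) k) A (g j)) := rfl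
      rw [← h1, h, map_sum]
      have h2 := congrFun ha j
      rw [jac_apply] at h2
      rw [← h2.trans (Pi.zero_apply j)]
      refine Finset.sum_congr rfl fun i _ => ?_
      rw [← hb i, ← hd i, Algebra.smul_def, map_mul]
      rfl
    have hdI : ∀ x : A, Ideal.Quotient.mk I x = 0 → Ideal.Quotient.mk I (d x) = 0 := by
      intro x hx
      rw [Ideal.Quotient.eq_zero_iff_mem, hI] at hx
      induction hx using Submodule.span_induction with
      | mem x hx =>
        obtain ⟨j, rfl⟩ := hx
        exact hdg j
      | zero => rw [map_zero, map_zero]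
      | add x y _ _ hx hy => rw [map_add, map_add, hx, hy, add_zero]
      | smul a x hx' hx =>
        rw [smul_eq_mul, Derivation.leibniz, map_add, smul_eq_mul, smul_eq_mul, map_mul, map_mul,
          hx, mul_zero, zero_add]
        have : Ideal.Quotient.mk I x = 0 := by
          rw [Ideal.Quotient.eq_zero_iff_mem, hI]
          exact hx'
        rw [this, zero_mul]
    let f : A →ₐ[k] A ⧸ I := Ideal.Quotient.mkₐ k I
    have hf : Function.Surjective f := Ideal.Quotient.mk_surjective
    have hdI' : ∀ x : A, f x = 0 → f (d x) = 0 := hdI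
    refine ⟨Derivation.liftOfSurjective hf hdI', ?_⟩
    apply Subtype.ext
    funext i
    have key := Derivation.liftOfSurjective_apply hf hdI'
      (algebraMap (MvPolynomial (Fin n) k) A (MvPolynomial.X i))
    rw [hd] at key
    exact key.trans (hb i)

end

end Pool.Agent.HV
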