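import Pool.Agent.HV.Minor
import Pool.Agent.HV.Chain

/-!
Theorem A: the maximal minors of the Jacobian matrix do not vanish on a non-zero
finite-dimensional module of finite projective dimension over a complete intersection.
-/

namespace Pool.Agent.HV

open TensorProduct Module

variable {K : Type} [Field K] {A : Type} [CommRing A] [Algebra K A]
variable {N : Type} [AddCommGroup N] [Module K N] [Module A N] [IsScalarTower K A N]
variable {n c : ℕ} (x : Fin n → A) (p : Fin c → MvPolynomial (Fin n) K)
variable {ι : Type} [Fintype ι] (b : Basis ι K N)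

/-- the products of the homotopies applied to the coevaluation element -/
noncomputable def psi (i : ℕ) : N ⊗[K] (Dual K N ⊗[K] Lam K n) :=
  aN K A N n (((List.finRange c).drop i).map fun j => TT (dd x p j) (eop K)).prod (phi b n)

theorem bal_list (l : List (Fin c)) :
    Bal A (aN K A N n (l.map fun j => TT (dd x p j) (eop K)).prod (phi b n)) := by
  induction l with
  | nil =>
    rw [List.map_nil, List.prod_nil, map_one]
    exact bal_phi b
  | cons j l ih =>
    rw [List.map_cons, List.prod_cons, map_mul, Module.End.mul_apply]
    exact ih.TT _ _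

theorem list_eq (l : List (Fin c)) :
    aN K A N n (l.map fun j => TT (dd x p j) (eop K)).prod (phi b n) =
    aN K A N n (l.map fun j => TT' (fun i => MvPolynomial.aeval x (MvPolynomial.pderiv i (p j)))
      (eop K)).prod (phi b n) := by
  induction l with
  | nil => rfl
  | cons j l ih =>
    rw [List.map_cons, List.prod_cons, map_mul, Module.End.mul_apply, List.map_cons,
      List.prod_cons, map_mul, Module.End.mul_apply, ← ih, (bal_list x p b l).TT_eq]
    congr 3
    funext i
    exact dd_diag x p j i

theorem psi_top : psi x p b c = phi b n := by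
  unfold psi
  rw [List.drop_eq_nil_of_le (by simp), List.map_nil, List.prod_nil, map_one]
  rfl

theorem psi_succ (j : Fin c) :
    aN K A N n (TT (dd x p j) (eop K)) (psi x p b (j + 1)) = psi x p b j := by
  unfold psi
  have h : (List.finRange c).drop (j : ℕ) = j :: (List.finRange c).drop ((j : ℕ) + 1) := by
    rw [List.drop_eq_getElem_cons (by simp)]
    congr 1
    simp
  rw [h, List.map_cons, List.prod_cons, map_mul, Module.End.mul_apply]

theorem psi_zero [CharZero K]
    (hJ : ∀ (r : Fin c → Fin n) (v : N),
      (mat (fun j i => MvPolynomial.aeval x (MvPolynomial.pderiv i (p j))) r).det • v = 0) :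
    psi x p b 0 = 0 := by
  unfold psi
  rw [List.drop_zero, list_eq]
  have h := prod_eq_zero (K := K) (N := N)
    (fun j i => MvPolynomial.aeval x (MvPolynomial.pderiv i (p j))) hJ
  rw [List.ofFn_eq_map] at h
  rw [h]
  rfl

/-- **Theorem A.** -/
theorem thmA [CharZero K] {B : Type} [CommRing B] [Algebra K B] [Algebra A B]
    [IsScalarTower K A B] (hsurj : Function.Surjective (algebraMap A B))
    (hker : RingHom.ker (algebraMap A B) =
      Ideal.span (Set.range fun j => MvPolynomial.aeval x (p j)))
    (hreg : ∀ (j : Fin c) (a : A), MvPolynomial.aeval x (p j) * a ∈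
      Ideal.span ((fun j => MvPolynomial.aeval x (p j)) '' {i | i ≠ j}) →
      a ∈ Ideal.span ((fun j => MvPolynomial.aeval x (p j)) '' {i | i ≠ j}))
    [Module B N] [IsScalarTower A B N] [FiniteDimensional K N] {m : ℕ} (hres : HasRes B m N)
    (hJ : ∀ (r : Fin c → Fin n) (v : N),
      (mat (fun j i => MvPolynomial.aeval x (MvPolynomial.pderiv i (p j))) r).det • v = 0) :
    Subsingleton N := by
  have h2 : (2 : K) ≠ 0 := two_ne_zero
  have hN : ∀ (j : Fin c) (v : N), MvPolynomial.aeval x (p j) • v = 0 := by
    intro j v
    have : algebraMap A B (MvPolynomial.aeval x (p j)) = 0 := by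
      have h : MvPolynomial.aeval x (p j) ∈ RingHom.ker (algebraMap A B) := by
        rw [hker]
        exact Ideal.subset_span ⟨j, rfl⟩
      exact h
    rw [← algebraMap_smul B, this, zero_smul]
  let κ := kos x p h2 N hN
  have H : κ.CI B := ⟨hsurj, hker, hreg⟩
  let b := Module.finBasis K N
  have hD : ∀ j, κ.D j = TT (dd x p j) (eop K) := fun j => rfl
  have hd : κ.d = TT (fun i => x i ⊗ₜ[K] (1 : A) - (1 : A) ⊗ₜ[K] x i) (iop K) := rfl
  have key := κ.final (V := N) (fun j W _ _ y hy hj => H.acyc_of_res hy h2 j hj m N hres)
    (psi x p b) (fun j => psi_succ x p b j) ?_ ?_ (psi_zero x p b hJ) (ell K N n) ?_ ?_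
  · have h1 : ell K N n (psi x p b c) = 0 := key
    rw [psi_top, ell_phi, Fintype.card_fin] at h1
    have h3 : Module.finrank K N = 0 := by exact_mod_cast h1
    exact Module.finrank_zero_iff.1 h3
  · -- the homotopies with index at least `i` vanish on `psi i`
    intro k i hik
    have hgen : ∀ s i : ℕ, i + s = c → ∀ k : Fin c, i ≤ k →
        aN K A N n (TT (dd x p k) (eop K)) (psi x p b i) = 0 := by
      intro s
      induction s with
      | zero =>
        intro i hi k hk
        have := k.2
        omega
      | succ s ih =>
        intro i hi k hk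
        have hic : i < c := by omega
        have h1 := psi_succ x p b ⟨i, hic⟩
        change aN K A N n (TT (dd x p ⟨i, hic⟩) (eop K)) (psi x p b (i + 1)) = psi x p b i at h1
        rw [← h1, ← Module.End.mul_apply, ← map_mul]
        by_cases hki : (k : ℕ) = i
        · have : k = ⟨i, hic⟩ := Fin.ext hki
          subst this
          have := κ.DD ⟨i, hic⟩
          rw [hD] at this
          rw [this, map_zero]
          rfl
        · have h3 := κ.DD' k ⟨i, hic⟩
          rw [hD, hD] at h3
          rw [eq_neg_of_add_eq_zero_left h3, map_neg, map_mul, LinearMap.neg_apply,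
            Module.End.mul_apply, ih (i + 1) (by omega) k (by omega), map_zero, neg_zero]
    exact hgen (c - i) i (by have := k.2; omega) k hik
  · -- the Koszul differential vanishes on `psi i`
    intro i hi
    have hgen : ∀ s i : ℕ, i + s = c →
        aN K A N n (TT (fun i => x i ⊗ₜ[K] (1 : A) - (1 : A) ⊗ₜ[K] x i) (iop K))
          (psi x p b i) = 0 := by
      intro s
      induction s with
      | zero =>
        intro i hi
        rw [add_zero] at hi
        subst hi
        rw [psi_top]
        exact TT_iop_phi b _
      | succ s ih =>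
        intro i hi
        have hic : i < c := by omega
        have h1 := psi_succ x p b ⟨i, hic⟩
        change aN K A N n (TT (dd x p ⟨i, hic⟩) (eop K)) (psi x p b (i + 1)) = psi x p b i at h1
        rw [← h1, ← Module.End.mul_apply, ← map_mul]
        have h3 := κ.dD ⟨i, hic⟩
        rw [hD, hd] at h3
        have h4 : aN K A N n (κ.f ⟨i, hic⟩ ⊗ₜ[K] (1 : Module.End K (Dual K N ⊗[K] Lam K n))) = 0 := by
          apply LinearMap.ext
          intro z
          induction z using TensorProduct.induction_on with
          | zero => simp
          | add z w hz hw => rw [map_add, hz, hw]; simp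
          | tmul v m =>
            rw [aN_tmul_tmul]
            have : κ.f ⟨i, hic⟩ • v = 0 := hN _ v
            rw [this, TensorProduct.zero_tmul]
            rfl
        rw [eq_sub_of_add_eq h3, map_sub, h4, map_mul, zero_sub, LinearMap.neg_apply,
          Module.End.mul_apply, ih (i + 1) (by omega), map_zero, neg_zero]
    exact hgen (c - i) i (by omega)
  · intro z
    show ell K N n (aN K A N n (TT (fun i => x i ⊗ₜ[K] (1 : A) - (1 : A) ⊗ₜ[K] x i) (iop K)) z) = 0
    unfold TT
    rw [map_sum, LinearMap.sum_apply, map_sum]
    exact Finset.sum_eq_zero fun i _ => ell_rho (x i) (iop K i) z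
  · intro j z
    show ell K N n (aN K A N n (TT (dd x p j) (eop K)) z) = 0
    unfold TT
    rw [map_sum, LinearMap.sum_apply, map_sum]
    exact Finset.sum_eq_zero fun i _ => ell_eop _ i z

end Pool.Agent.HV
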