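import Pool.Agent.HV.Coeff
import Pool.Agent.HV.ThmA

/-!
Theorem A for modules of finite length over local rings essentially of finite type.
-/

namespace Pool.Agent.HV

open IsLocalRing TensorProduct

theorem finite_quot {K A B : Type} [Field K] [CommRing A] [IsLocalRing A] [Algebra K A]
    [CommRing B] [Algebra A B] [Algebra K B] [IsScalarTower K A B]
    (hsurj : Function.Surjective (algebraMap A B)) [Module.Finite K (A ⧸ maximalIdeal A)]
    (I : Ideal B) [hI : I.IsMaximal] : Module.Finite K (B ⧸ I) := by
  have hcomap : maximalIdeal A = I.comap (algebraMap A B) := by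
    have : (I.comap (algebraMap A B)).IsMaximal :=
      Ideal.comap_isMaximal_of_surjective (algebraMap A B) hsurj
    exact (eq_maximalIdeal this).symm
  let f : A ⧸ maximalIdeal A →ₐ[K] B ⧸ I :=
    Ideal.Quotient.liftₐ (maximalIdeal A)
      ((Ideal.Quotient.mkₐ K I).comp (IsScalarTower.toAlgHom K A B)) (by
      intro a ha
      show Ideal.Quotient.mk I (algebraMap A B a) = 0
      rw [Ideal.Quotient.eq_zero_iff_mem]
      rw [hcomap] at ha
      exact ha)
  have hf : Function.Surjective f := by
    intro z
    obtain ⟨b, rfl⟩ := Ideal.Quotient.mk_surjective z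
    obtain ⟨a, rfl⟩ := hsurj b
    exact ⟨Ideal.Quotient.mk _ a, rfl⟩
  exact Module.Finite.of_surjective f.toLinearMap hf

theorem finite_of_len {K A B : Type} [Field K] [CommRing A] [IsLocalRing A] [Algebra K A]
    [CommRing B] [Algebra A B] [Algebra K B] [IsScalarTower K A B]
    (hsurj : Function.Surjective (algebraMap A B)) [Module.Finite K (A ⧸ maximalIdeal A)]
    {M : Type} [AddCommGroup M] [Module B M] (h : IsFiniteLength B M) :
    ∀ [Module K M] [IsScalarTower K B M], Module.Finite K M := by
  induction h with
  | of_subsingleton =>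
    intro _ _
    infer_instance
  | @of_simple_quotient M _ _ N hs hN ih =>
    intro _ _
    have h1 : Module.Finite K N := ih
    have h2 : Module.Finite K (M ⧸ N) := by
      obtain ⟨I, hI, ⟨e⟩⟩ := isSimpleModule_iff_quot_maximal.1 hs
      have := finite_quot (K := K) hsurj I
      exact Module.Finite.equiv (e.restrictScalars K).symm
    have h3 : Module.Finite K (N.restrictScalars K) := h1
    have h4 : Module.Finite K (M ⧸ N.restrictScalars K) := h2
    exact Module.Finite.of_submodule_quotient (N.restrictScalars K)

/-- Theorem A for modules of finite length. -/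
theorem thmA2 {k : Type} [Field k] [CharZero k] {A : Type} [CommRing A] [IsLocalRing A]
    [Algebra k A] [Algebra.EssFiniteType k A] {n c : ℕ} (x : Fin n → A)
    (g : Fin c → MvPolynomial (Fin n) k) {B : Type} [CommRing B] [Algebra A B]
    (hsurj : Function.Surjective (algebraMap A B))
    (hker : RingHom.ker (algebraMap A B) =
      Ideal.span (Set.range fun j => MvPolynomial.aeval x (g j)))
    (hreg : ∀ (j : Fin c) (a : A), MvPolynomial.aeval x (g j) * a ∈
      Ideal.span ((fun j => MvPolynomial.aeval x (g j)) '' {i | i ≠ j}) →
      a ∈ Ideal.span ((fun j => MvPolynomial.aeval x (g j)) '' {i | i ≠ j}))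
    {N : Type} [AddCommGroup N] [Module B N] (hfl : IsFiniteLength B N) {m : ℕ}
    (hres : HasRes B m N)
    (hJ : ∀ (r : Fin c → Fin n) (v : N), algebraMap A B
      (mat (fun j i => MvPolynomial.aeval x (MvPolynomial.pderiv i (g j))) r).det • v = 0) :
    Subsingleton N := by
  obtain ⟨K, _, _, _, _, hfin⟩ := exists_coeff k A
  have : CharZero K := charZero_of_injective_algebraMap (algebraMap k K).injective
  let p : Fin c → MvPolynomial (Fin n) K := fun j => MvPolynomial.map (algebraMap k K) (g j)
  have hp : ∀ j, MvPolynomial.aeval x (p j) = MvPolynomial.aeval x (g j) := fun j =>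
    MvPolynomial.aeval_map_algebraMap K x (g j)
  have hp' : ∀ i j, MvPolynomial.aeval x (MvPolynomial.pderiv i (p j)) =
      MvPolynomial.aeval x (MvPolynomial.pderiv i (g j)) := by
    intro i j
    show MvPolynomial.aeval x (MvPolynomial.pderiv i (MvPolynomial.map (algebraMap k K) (g j))) = _
    rw [MvPolynomial.pderiv_map, MvPolynomial.aeval_map_algebraMap]
  have hpf : (fun j => MvPolynomial.aeval x (p j)) = fun j => MvPolynomial.aeval x (g j) :=
    funext hp
  let _ : Algebra K B := ((algebraMap A B).comp (algebraMap K A)).toAlgebra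
  have : IsScalarTower K A B := IsScalarTower.of_algebraMap_eq fun _ => rfl
  let _ : Module A N := Module.compHom N (algebraMap A B)
  let _ : Module K N := Module.compHom N (algebraMap K B)
  have hAB : ∀ (a : A) (v : N), a • v = algebraMap A B a • v := fun _ _ => rfl
  have : IsScalarTower A B N := ⟨fun a b v => by
    rw [hAB, Algebra.smul_def, mul_smul]⟩
  have : IsScalarTower K B N := ⟨fun a b v => by
    show (a • b) • v = algebraMap K B a • b • v
    rw [Algebra.smul_def, mul_smul]⟩
  have : IsScalarTower K A N := ⟨fun a b v => by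
    show algebraMap A B (a • b) • v = algebraMap K B a • algebraMap A B b • v
    rw [Algebra.smul_def, map_mul, mul_smul]
    rfl⟩
  have : Module.Finite K N := finite_of_len (K := K) hsurj hfl
  refine thmA (K := K) (A := A) (N := N) (B := B) x p hsurj ?_ ?_ hres ?_
  · rw [hpf]
    exact hker
  · rw [hpf]
    intro j a h
    rw [hp] at h
    exact hreg j a h
  · intro r v
    rw [hAB]
    have : (fun (j : Fin c) (i : Fin n) => MvPolynomial.aeval x (MvPolynomial.pderiv i (p j))) =
        fun j i => MvPolynomial.aeval x (MvPolynomial.pderiv i (g j)) := by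
      funext j i
      exact hp' i j
    rw [this]
    exact hJ r v

end Pool.Agent.HV
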