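import Pool.Agent.HV.Koszul

/-!
The Koszul data attached to a finite-dimensional module.
-/

namespace Pool.Agent.HV

open TensorProduct Module

variable {K : Type} [Field K] {A : Type} [CommRing A] [Algebra K A]

section

variable (A) (N : Type) [AddCommGroup N] [Module K N] [Module A N] [IsScalarTower K A N]

/-- The contragredient action. -/
noncomputable def rN : A →ₐ[K] Module.End K (Dual K N) where
  toFun a := (Algebra.lsmul K K N a).dualMap
  map_one' := by
    rw [map_one]
    ext f v
    rfl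
  map_mul' a b := by
    ext f v
    show f ((a * b) • v) = f (b • a • v)
    rw [mul_comm, mul_smul]
  map_zero' := by
    rw [map_zero]
    ext f v
    show f 0 = 0
    exact map_zero f
  map_add' a b := by
    ext f v
    show f ((a + b) • v) = f (a • v) + f (b • v)
    rw [add_smul, map_add]
  commutes' k := by
    ext f v
    show f (algebraMap K A k • v) = (algebraMap K (Module.End K (Dual K N)) k f) v
    rw [algebraMap_smul, map_smul]
    rfl

variable {A N} in
theorem rN_apply (a : A) (f : Dual K N) (v : N) : rN A N a f v = f (a • v) := rfl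

variable (n : ℕ)

/-- The two-sided action. -/
noncomputable def rho : A ⊗[K] A →ₐ[K] A ⊗[K] Module.End K (Dual K N ⊗[K] Lam K n) :=
  Algebra.TensorProduct.map (AlgHom.id K A)
    ((Module.End.rTensorAlgHom K (Dual K N) (Lam K n)).comp (rN A N))

/-- The operators of the exterior algebra. -/
noncomputable def eps :
    Module.End K (Lam K n) →ₐ[K] A ⊗[K] Module.End K (Dual K N ⊗[K] Lam K n) :=
  (Algebra.TensorProduct.includeRight).comp (Module.End.lTensorAlgHom K (Lam K n) (Dual K N))

variable {A N n}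

theorem rho_tmul (a b : A) : rho A N n (a ⊗ₜ[K] b) =
    a ⊗ₜ[K] ((rN A N b).rTensor (Lam K n)) := rfl

omit [Module A N] [IsScalarTower K A N] in
theorem eps_apply (l : Module.End K (Lam K n)) : eps A N n l =
    (1 : A) ⊗ₜ[K] (l.lTensor (Dual K N)) := rfl

theorem rho_eps (C : A ⊗[K] A) (l : Module.End K (Lam K n)) :
    rho A N n C * eps A N n l = eps A N n l * rho A N n C := by
  induction C using TensorProduct.induction_on with
  | zero => simp
  | add C C' h h' => rw [map_add, add_mul, mul_add, h, h']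
  | tmul a b =>
    rw [rho_tmul, eps_apply, Algebra.TensorProduct.tmul_mul_tmul,
      Algebra.TensorProduct.tmul_mul_tmul, mul_one, one_mul]
    congr 1
    apply TensorProduct.ext'
    intro f w
    rfl

/-- sums -/
noncomputable def TT (P : Fin n → A ⊗[K] A) (S : Fin n → Module.End K (Lam K n)) :
    A ⊗[K] Module.End K (Dual K N ⊗[K] Lam K n) :=
  ∑ i, rho A N n (P i) * eps A N n (S i)

theorem TT_mul (P Q : Fin n → A ⊗[K] A) (S R : Fin n → Module.End K (Lam K n)) :
    (TT P S : A ⊗[K] Module.End K (Dual K N ⊗[K] Lam K n)) * TT Q R =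
      ∑ i, ∑ k, rho A N n (P i * Q k) * eps A N n (S i * R k) := by
  unfold TT
  rw [Finset.sum_mul_sum]
  refine Finset.sum_congr rfl fun i _ => Finset.sum_congr rfl fun k _ => ?_
  rw [map_mul, map_mul, mul_assoc, ← mul_assoc (eps A N n (S i)), ← rho_eps, mul_assoc,
    ← mul_assoc (rho A N n (P i))]

theorem TT_anti (P Q : Fin n → A ⊗[K] A) (S R : Fin n → Module.End K (Lam K n)) :
    (TT P S : A ⊗[K] Module.End K (Dual K N ⊗[K] Lam K n)) * TT Q R + TT Q R * TT P S =
      ∑ i, ∑ k, rho A N n (P i * Q k) * eps A N n (S i * R k + R k * S i) := by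
  rw [TT_mul, TT_mul]
  nth_rewrite 2 [Finset.sum_comm]
  rw [← Finset.sum_add_distrib]
  refine Finset.sum_congr rfl fun i _ => ?_
  rw [← Finset.sum_add_distrib]
  refine Finset.sum_congr rfl fun k _ => ?_
  rw [mul_comm (Q k) (P i), map_add, mul_add]

theorem TT_sq (h2 : (2 : K) ≠ 0) (P : Fin n → A ⊗[K] A) (S : Fin n → Module.End K (Lam K n))
    (hS : ∀ i k, S i * S k + S k * S i = 0) :
    (TT P S : A ⊗[K] Module.End K (Dual K N ⊗[K] Lam K n)) * TT P S = 0 := by
  have h := TT_anti (N := N) P P S S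
  rw [← two_smul K] at h
  have h' : (2 : K) • ((TT P S : A ⊗[K] Module.End K (Dual K N ⊗[K] Lam K n)) * TT P S) = 0 := by
    rw [h]
    refine Finset.sum_eq_zero fun i _ => Finset.sum_eq_zero fun k _ => ?_
    rw [hS, map_zero, mul_zero]
  exact (smul_eq_zero.1 h').resolve_left h2

end

variable {n : ℕ} (x : Fin n → A) {c : ℕ} (p : Fin c → MvPolynomial (Fin n) K)

/-- the chosen divided differences -/
noncomputable def dd (j : Fin c) : Fin n → A ⊗[K] A := (exists_dd x (p j)).choose

theorem dd_spec (j : Fin c) :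
    (MvPolynomial.aeval x (p j)) ⊗ₜ[K] (1 : A) - (1 : A) ⊗ₜ[K] (MvPolynomial.aeval x (p j)) =
        ∑ i, (x i ⊗ₜ[K] (1 : A) - (1 : A) ⊗ₜ[K] x i) * dd x p j i :=
  (exists_dd x (p j)).choose_spec.1

theorem dd_diag (j : Fin c) (i : Fin n) : Algebra.TensorProduct.lmul' K (S := A) (dd x p j i) =
    MvPolynomial.aeval x (MvPolynomial.pderiv i (p j)) :=
  (exists_dd x (p j)).choose_spec.2 i

/-- The Koszul data attached to `N`. -/
noncomputable def kos (h2 : (2 : K) ≠ 0) (N : Type) [AddCommGroup N] [Module K N] [Module A N]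
    [IsScalarTower K A N] (hN : ∀ (j : Fin c) (v : N), MvPolynomial.aeval x (p j) • v = 0) :
    Kos K A (Dual K N ⊗[K] Lam K n) c where
  d := TT (fun i => x i ⊗ₜ[K] (1 : A) - (1 : A) ⊗ₜ[K] x i) (iop K)
  D j := TT (dd x p j) (eop K)
  f j := MvPolynomial.aeval x (p j)
  dd := TT_sq h2 _ _ iop_iop
  DD j := TT_sq h2 _ _ eop_eop
  dD j := by
    rw [TT_anti]
    have e : ∀ i k : Fin n, rho A N n ((x i ⊗ₜ[K] (1 : A) - (1 : A) ⊗ₜ[K] x i) * dd x p j k) *
        eps A N n (iop K i * eop K k + eop K k * iop K i) =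
        if i = k then rho A N n ((x i ⊗ₜ[K] (1 : A) - (1 : A) ⊗ₜ[K] x i) * dd x p j k) else 0 := by
      intro i k
      rw [iop_eop]
      split_ifs
      · rw [map_one, mul_one]
      · rw [map_zero, mul_zero]
    simp only [e, Finset.sum_ite_eq, Finset.mem_univ, if_true]
    rw [← map_sum, ← dd_spec, map_sub, rho_tmul, rho_tmul]
    have h1 : rN (K := K) A N (MvPolynomial.aeval x (p j)) = 0 := by
      apply LinearMap.ext
      intro f
      apply LinearMap.ext
      intro v
      rw [rN_apply, hN, map_zero]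
      rfl
    rw [h1, map_one, LinearMap.rTensor_zero, TensorProduct.tmul_zero, sub_zero]
    congr 1
    exact LinearMap.rTensor_id _ _
  DD' j k := by
    rw [TT_anti]
    refine Finset.sum_eq_zero fun i _ => Finset.sum_eq_zero fun l _ => ?_
    rw [eop_eop, map_zero, mul_zero]

end Pool.Agent.HV
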