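import Pool.Agent.HV.Res

/-!
The Koszul operators attached to a finite-dimensional module.
-/

namespace Pool.Agent.HV

open TensorProduct Module

/-! ### Divided differences -/

/-- divided differences -/
theorem exists_dd {K : Type} [Field K] {A : Type} [CommRing A] [Algebra K A] {n : ℕ}
    (x : Fin n → A) (p : MvPolynomial (Fin n) K) :
    ∃ Δ : Fin n → A ⊗[K] A,
      (MvPolynomial.aeval x p) ⊗ₜ[K] (1 : A) - (1 : A) ⊗ₜ[K] (MvPolynomial.aeval x p) =
        ∑ i, (x i ⊗ₜ[K] (1 : A) - (1 : A) ⊗ₜ[K] x i) * Δ i ∧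
      ∀ i, Algebra.TensorProduct.lmul' K (S := A) (Δ i) =
        MvPolynomial.aeval x (MvPolynomial.pderiv i p) := by
  classical
  induction p using MvPolynomial.induction_on with
  | C a =>
    refine ⟨fun _ => 0, ?_, ?_⟩
    · simp only [mul_zero, Finset.sum_const_zero, MvPolynomial.aeval_C]
      rw [sub_eq_zero, Algebra.algebraMap_eq_smul_one, TensorProduct.smul_tmul]
    · intro i
      simp
  | add p q hp hq =>
    obtain ⟨Δ, h1, h2⟩ := hp
    obtain ⟨Δ', h1', h2'⟩ := hq
    refine ⟨fun i => Δ i + Δ' i, ?_, ?_⟩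
    · simp only [map_add, mul_add, Finset.sum_add_distrib, ← h1, ← h1', TensorProduct.add_tmul,
        TensorProduct.tmul_add]
      abel
    · intro i
      simp only [map_add, h2, h2']
  | mul_X p k hp =>
    obtain ⟨Δ, h1, h2⟩ := hp
    refine ⟨fun i => Δ i * (x k ⊗ₜ[K] (1 : A)) +
      if i = k then (1 : A) ⊗ₜ[K] (MvPolynomial.aeval x p) else 0, ?_, ?_⟩
    · simp only [mul_add, Finset.sum_add_distrib, ← mul_assoc, ← Finset.sum_mul, ← h1, mul_ite,
        mul_zero, Finset.sum_ite_eq', Finset.mem_univ, if_true, map_mul, MvPolynomial.aeval_X]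
      simp only [sub_mul, Algebra.TensorProduct.tmul_mul_tmul, one_mul, mul_one]
      have e : MvPolynomial.aeval x p * x k = x k * MvPolynomial.aeval x p := mul_comm _ _
      rw [e]
      abel
    · intro i
      rw [map_add, map_mul, h2, Derivation.leibniz, map_add]
      simp only [Algebra.TensorProduct.lmul'_apply_tmul, mul_one, smul_eq_mul, map_mul,
        MvPolynomial.aeval_X, MvPolynomial.pderiv_X]
      by_cases h : i = k
      · subst h
        simp
        ring
      · rw [if_neg h, map_zero, Pi.single_eq_of_ne (Ne.symm h), map_zero, mul_zero]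
        ring

/-! ### The exterior algebra -/

section

variable (K : Type) [Field K] (n : ℕ)

/-- the exterior algebra -/
abbrev Lam : Type := ExteriorAlgebra K (Fin n → K)

variable {n}

/-- exterior multiplication -/
noncomputable def eop (i : Fin n) : Module.End K (Lam K n) :=
  LinearMap.mulLeft K (ExteriorAlgebra.ι K (Pi.single i 1))

/-- contraction -/
noncomputable def iop (i : Fin n) : Module.End K (Lam K n) :=
  CliffordAlgebra.contractLeft (LinearMap.proj i : (Fin n → K) →ₗ[K] K)

variable {K}

theorem eop_apply (i : Fin n) (w : Lam K n) :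
    eop K i w = ExteriorAlgebra.ι K (Pi.single i 1) * w := rfl

theorem eop_eop (i k : Fin n) : eop K i * eop K k + eop K k * eop K i = 0 := by
  apply LinearMap.ext
  intro w
  rw [LinearMap.add_apply, Module.End.mul_apply, Module.End.mul_apply]
  simp only [eop_apply]
  rw [← mul_assoc, ← mul_assoc, ← add_mul, ExteriorAlgebra.ι_add_mul_swap, zero_mul]
  rfl

theorem iop_iop (i k : Fin n) : iop K i * iop K k + iop K k * iop K i = 0 := by
  apply LinearMap.ext
  intro w
  rw [LinearMap.add_apply, Module.End.mul_apply, Module.End.mul_apply]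
  unfold iop
  rw [CliffordAlgebra.contractLeft_comm, neg_add_cancel]
  rfl

theorem iop_eop (i k : Fin n) :
    iop K i * eop K k + eop K k * iop K i = if i = k then 1 else 0 := by
  apply LinearMap.ext
  intro w
  rw [LinearMap.add_apply, Module.End.mul_apply, Module.End.mul_apply]
  have h := CliffordAlgebra.contractLeft_ι_mul (Q := (0 : QuadraticForm K (Fin n → K)))
    (d := (LinearMap.proj i : (Fin n → K) →ₗ[K] K)) (Pi.single k 1) w
  have h' : iop K i (eop K k w) = (LinearMap.proj i : (Fin n → K) →ₗ[K] K) (Pi.single k 1) • w -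
      eop K k (iop K i w) := h
  rw [h', sub_add_cancel, LinearMap.proj_apply]
  by_cases hik : i = k
  · subst hik
    rw [if_pos rfl, Pi.single_eq_same, one_smul]
    rfl
  · rw [if_neg hik, Pi.single_eq_of_ne hik, zero_smul]
    rfl

theorem iop_one (i : Fin n) : iop K i (1 : Lam K n) = 0 :=
  CliffordAlgebra.contractLeft_one (Q := (0 : QuadraticForm K (Fin n → K)))
    (LinearMap.proj i : (Fin n → K) →ₗ[K] K)

/-- the augmentation -/
noncomputable def aug (K : Type) [Field K] (n : ℕ) : Lam K n →ₐ[K] K :=
  ExteriorAlgebra.algebraMapInv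

theorem aug_eop (i : Fin n) (w : Lam K n) : aug K n (eop K i w) = 0 := by
  rw [eop_apply, map_mul]
  have : aug K n (ExteriorAlgebra.ι K (Pi.single i 1)) = 0 := by
    unfold aug ExteriorAlgebra.algebraMapInv
    rw [ExteriorAlgebra.lift_ι_apply]
    rfl
  rw [this, zero_mul]

end

end Pool.Agent.HV
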