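import Pool.Agent.HV.Res

/-!
Flat base change of resolutions, and finite length of localizations at minimal primes of the
support.
-/

namespace Pool.Agent.HV

open IsLocalRing TensorProduct

theorem HasRes.baseChange {R B : Type} [CommRing R] [CommRing B] [Algebra R B]
    [Module.Flat R B] : ∀ {n : ℕ} {M : Type} [AddCommGroup M] [Module R M],
    HasRes R n M → HasRes B n (B ⊗[R] M)
  | 0, M, _, _, h => by
    have : Subsingleton M := h
    show Subsingleton (B ⊗[R] M)
    refine ⟨fun a b => ?_⟩
    have h0 : ∀ z : B ⊗[R] M, z = 0 := by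
      intro z
      induction z using TensorProduct.induction_on with
      | zero => rfl
      | add z w hz hw => rw [hz, hw, add_zero]
      | tmul b m => rw [Subsingleton.elim m 0, TensorProduct.tmul_zero]
    rw [h0 a, h0 b]
  | n + 1, M, _, _, h => by
    obtain ⟨P, _, _, hP, g, hg, hk⟩ := h
    exact HasRes.succ_of_surj (P := B ⊗[R] P) (AlgebraTensorModule.lTensor B B g)
      (LinearMap.lTensor_surjective B hg) (LinearMap.tensorKerEquiv B B g) hk.baseChange

theorem finLen_of_minimal {R B : Type} [CommRing R] [IsNoetherianRing R] [CommRing B]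
    [Algebra R B] (P : Ideal R) [P.IsPrime] [IsLocalization.AtPrime B P] (T : Type)
    [AddCommGroup T] [Module R T] [Module.Finite R T]
    (hP : P ∈ (Module.annihilator R T).minimalPrimes) : IsFiniteLength B (B ⊗[R] T) := by
  have hloc : IsLocalRing B := IsLocalization.AtPrime.isLocalRing B P
  have hnoeth : IsNoetherianRing B := IsLocalization.isNoetherianRing P.primeCompl B inferInstance
  set J : Ideal B := (Module.annihilator R T).map (algebraMap R B) with hJ
  have hmin : maximalIdeal B ∈ J.minimalPrimes := by
    rw [hJ, IsLocalization.minimalPrimes_map P.primeCompl B, Set.mem_preimage,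
      IsLocalization.AtPrime.under_maximalIdeal B P]
    exact hP
  have hart : IsArtinianRing (B ⧸ J) := quotient_artinian_of_mem_minimalPrimes_of_isLocalRing J hmin
  have htors : Module.IsTorsionBySet B (B ⊗[R] T) J := by
    intro z b
    obtain ⟨b, hb⟩ := b
    show b • z = 0
    rw [SetLike.mem_coe, hJ] at hb
    induction hb using Submodule.span_induction with
    | mem b hb =>
      obtain ⟨a, ha, rfl⟩ := hb
      induction z using TensorProduct.induction_on with
      | zero => rw [smul_zero]
      | add z w hz hw => rw [smul_add, hz, hw, add_zero]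
      | tmul b t =>
        rw [TensorProduct.smul_tmul', smul_eq_mul, ← Algebra.smul_def, TensorProduct.smul_tmul]
        rw [SetLike.mem_coe, Module.mem_annihilator] at ha
        rw [ha, TensorProduct.tmul_zero]
    | zero => rw [zero_smul]
    | add x y _ _ hx hy => rw [add_smul, hx, hy, add_zero]
    | smul a x _ hx => rw [smul_assoc, hx, smul_zero]
  let _ : Module (B ⧸ J) (B ⊗[R] T) := htors.module
  have : IsScalarTower B (B ⧸ J) (B ⊗[R] T) := htors.isScalarTower
  have : Module.Finite (B ⧸ J) (B ⊗[R] T) := Module.Finite.of_restrictScalars_finite B _ _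
  have hA : IsArtinian (B ⧸ J) (B ⊗[R] T) := inferInstance
  have hA' : IsArtinian B (B ⊗[R] T) :=
    isArtinian_of_surjective_algebraMap (R := B ⧸ J) Ideal.Quotient.mk_surjective
  have hN : IsNoetherian B (B ⊗[R] T) := inferInstance
  exact isFiniteLength_iff_isNoetherian_isArtinian.2 ⟨hN, hA'⟩

theorem nontrivial_of_minimal {R B : Type} [CommRing R] [CommRing B]
    [Algebra R B] (P : Ideal R) [P.IsPrime] [IsLocalization.AtPrime B P] (T : Type)
    [AddCommGroup T] [Module R T] [Module.Finite R T]
    (hP : Module.annihilator R T ≤ P) (hs : Subsingleton (B ⊗[R] T)) : False := by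
  have hL : IsLocalizedModule P.primeCompl (TensorProduct.mk R B T 1) :=
    (isLocalizedModule_iff_isBaseChange P.primeCompl B _).2 (TensorProduct.isBaseChange R T B)
  obtain ⟨s, hs'⟩ := Module.Finite.fg_top (R := R) (M := T)
  have h1 : ∀ t : T, ∃ c : P.primeCompl, c • t = 0 := by
    intro t
    have : TensorProduct.mk R B T 1 t = 0 := Subsingleton.elim _ _
    exact (IsLocalizedModule.eq_zero_iff P.primeCompl _).1 this
  choose c hc using h1
  classical
  set d : P.primeCompl := ∏ t ∈ s, c t with hd
  have h2 : ∀ t : T, (d : R) • t = 0 := by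
    intro t
    have ht : t ∈ Submodule.span R (s : Set T) := by rw [hs']; trivial
    induction ht using Submodule.span_induction with
    | mem t ht =>
      have ht' : t ∈ s := ht
      have h4 : d = (∏ u ∈ s.erase t, c u) * c t := by
        rw [hd, Finset.prod_erase_mul _ _ ht']
      have h5 : (c t : R) • t = 0 := hc t
      rw [h4, Submonoid.coe_mul, mul_smul, h5, smul_zero]
    | zero => rw [smul_zero]
    | add x y _ _ hx hy => rw [smul_add, hx, hy, add_zero]
    | smul a x _ hx => rw [smul_comm, hx, smul_zero]
  have h3 : (d : R) ∈ Module.annihilator R T := Module.mem_annihilator.2 h2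
  exact d.2 (hP h3)

end Pool.Agent.HV
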