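import Pool.Agent.HV.FinLen
import Pool.Agent.HV.Loc
import Pool.Agent.HV.Der

/-!
Theorem A without the finite length hypothesis, and the Herzog–Vasconcelos conjecture for
complete intersections.
-/

namespace Pool.Agent.HV

open IsLocalRing TensorProduct

section

variable {k : Type} [Field k] [CharZero k] {A : Type} [CommRing A] [Algebra k A]
variable {n c : ℕ}

theorem algebraMap_smul_eq_zero {R B T : Type} [CommRing R] [CommRing B] [Algebra R B]
    [AddCommGroup T] [Module R T] (d : R) (hd : ∀ t : T, d • t = 0) (z : B ⊗[R] T) :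
    algebraMap R B d • z = 0 := by
  induction z using TensorProduct.induction_on with
  | zero => rw [smul_zero]
  | add z w hz hw => rw [smul_add, hz, hw, add_zero]
  | tmul b t =>
    rw [TensorProduct.smul_tmul', smul_eq_mul, ← Algebra.smul_def, TensorProduct.smul_tmul,
      hd, TensorProduct.tmul_zero]

/-- A finitely generated module over a complete intersection with a finite projective resolution
which is killed by all the maximal minors of the Jacobian matrix is zero. -/
theorem subsingleton_of_res [Algebra.EssFiniteType k A] [IsNoetherianRing A] (x : Fin n → A)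
    (g : Fin c → MvPolynomial (Fin n) k) (I : Ideal A)
    (hI : I = Ideal.span (Set.range fun j => MvPolynomial.aeval x (g j)))
    (hreg : ∀ (j : Fin c) (a : A), MvPolynomial.aeval x (g j) * a ∈
      Ideal.span ((fun j => MvPolynomial.aeval x (g j)) '' {i | i ≠ j}) →
      a ∈ Ideal.span ((fun j => MvPolynomial.aeval x (g j)) '' {i | i ≠ j}))
    {T : Type} [AddCommGroup T] [Module (A ⧸ I) T] [Module.Finite (A ⧸ I) T] {m : ℕ}
    (hres : HasRes (A ⧸ I) m T)
    (hJ : ∀ (r : Fin c → Fin n) (v : T), Ideal.Quotient.mk I
      (mat (fun j i => MvPolynomial.aeval x (MvPolynomial.pderiv i (g j))) r).det • v = 0) :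
    Subsingleton T := by
  by_contra hT
  rw [not_subsingleton_iff_nontrivial] at hT
  have hann : Module.annihilator (A ⧸ I) T ≠ ⊤ := by
    intro h
    have h1 : (1 : A ⧸ I) ∈ Module.annihilator (A ⧸ I) T := by rw [h]; trivial
    rw [Module.mem_annihilator] at h1
    obtain ⟨t, ht⟩ := exists_ne (0 : T)
    apply ht
    rw [← h1 t, one_smul]
  obtain ⟨P, hP⟩ := Ideal.nonempty_minimalPrimes hann
  have hPp : P.IsPrime := hP.1.1
  have hPle : Module.annihilator (A ⧸ I) T ≤ P := hP.1.2
  set Q : Ideal A := P.comap (Ideal.Quotient.mk I) with hQ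
  have hQp : Q.IsPrime := Ideal.comap_isPrime _ _
  let A' := Localization.AtPrime Q
  let I' : Ideal A' := I.map (algebraMap A A')
  let B := A' ⧸ I'
  have hloc : IsLocalization.AtPrime B P := by
    have h1 : IsLocalization (Algebra.algebraMapSubmonoid (A ⧸ I) Q.primeCompl) B := inferInstance
    have h2 : Algebra.algebraMapSubmonoid (A ⧸ I) Q.primeCompl = P.primeCompl := by
      have h3 : Q.primeCompl = P.primeCompl.comap (Ideal.Quotient.mk I) := by
        ext a
        rfl
      rw [h3]
      exact Submonoid.map_comap_eq_of_surjective Ideal.Quotient.mk_surjective _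
    rw [h2] at h1
    exact h1
  have hflat : Module.Flat (A ⧸ I) B := IsLocalization.flat B P.primeCompl
  have hEFT : Algebra.EssFiniteType k A' := by
    have : Algebra.EssFiniteType A A' := Algebra.EssFiniteType.of_isLocalization A' Q.primeCompl
    exact Algebra.EssFiniteType.comp k A A'
  let x' : Fin n → A' := fun i => algebraMap A A' (x i)
  have hx' : ∀ p : MvPolynomial (Fin n) k, MvPolynomial.aeval x' p =
      algebraMap A A' (MvPolynomial.aeval x p) := fun p =>
    MvPolynomial.aeval_algebraMap_apply A' x p
  have hspan : ∀ s : Set (Fin c), Ideal.span ((fun j => MvPolynomial.aeval x' (g j)) '' s) =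
      (Ideal.span ((fun j => MvPolynomial.aeval x (g j)) '' s)).map (algebraMap A A') := by
    intro s
    rw [Ideal.map_span, ← Set.image_comp]
    congr 1
    refine Set.image_congr fun j _ => ?_
    exact hx' (g j)
  have hfl := finLen_of_minimal (B := B) P T hP
  have hres' : HasRes B m (B ⊗[A ⧸ I] T) := hres.baseChange
  refine nontrivial_of_minimal (B := B) P T hPle (thmA2 (A := A') x' g (B := B)
    Ideal.Quotient.mk_surjective ?_ ?_ hfl hres' ?_)
  · have h1 : RingHom.ker (algebraMap A' B) = I' := Ideal.mk_ker
    rw [h1]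
    show I.map (algebraMap A A') = _
    rw [hI, ← Set.image_univ, ← Set.image_univ, hspan]
  · intro j a ha
    rw [hspan] at ha ⊢
    obtain ⟨b, s, rfl⟩ := IsLocalization.exists_mk'_eq Q.primeCompl a
    rw [hx'] at ha
    have h1 : algebraMap A A' (MvPolynomial.aeval x (g j) * b) ∈
        (Ideal.span ((fun j => MvPolynomial.aeval x (g j)) '' {i | i ≠ j})).map
          (algebraMap A A') := by
      have h2 := Ideal.mul_mem_right (algebraMap A A' (s : A)) _ ha
      rw [mul_assoc, IsLocalization.mk'_spec, ← map_mul] at h2
      exact h2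
    rw [IsLocalization.algebraMap_mem_map_algebraMap_iff Q.primeCompl] at h1
    obtain ⟨t, ht, h1⟩ := h1
    have h3 : t * b ∈ Ideal.span ((fun j => MvPolynomial.aeval x (g j)) '' {i | i ≠ j}) := by
      apply hreg
      rw [mul_left_comm]
      exact h1
    rw [IsLocalization.mk'_mem_map_algebraMap_iff]
    exact ⟨t, ht, h3⟩
  · intro r z
    have h1 : (mat (fun j i => MvPolynomial.aeval x' (MvPolynomial.pderiv i (g j))) r).det =
        algebraMap A A'
          (mat (fun j i => MvPolynomial.aeval x (MvPolynomial.pderiv i (g j))) r).det := by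
      rw [RingHom.map_det]
      congr 1
      ext a b
      exact hx' _
    rw [h1]
    have h2 : ∀ a : A, algebraMap A' B (algebraMap A A' a) =
      algebraMap (A ⧸ I) B (Ideal.Quotient.mk I a) := fun a => rfl
    rw [h2]
    exact algebraMap_smul_eq_zero _ (hJ r) z

/-- The maximal minors of a matrix kill its cokernel. -/
theorem det_smul_mem_range {R : Type} [CommRing R] (J : Matrix (Fin c) (Fin n) R)
    (r : Fin c → Fin n) (v : Fin c → R) :
    (Matrix.of fun k j => J j (r k)).det • v ∈ LinearMap.range J.mulVecLin := by
  classical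
  -- the square submatrix
  set S : Matrix (Fin c) (Fin c) R := Matrix.of fun j k => J j (r k) with hS
  have hdet : (Matrix.of fun k j => J j (r k)).det = S.det := by
    rw [← Matrix.det_transpose S]
    rfl
  rw [hdet]
  have h1 : S.det • v = S.mulVec (S.adjugate.mulVec v) := by
    rw [Matrix.mulVec_mulVec, Matrix.mul_adjugate, Matrix.smul_mulVec, Matrix.one_mulVec]
  rw [h1]
  have h2 : ∀ w : Fin c → R, S.mulVec w ∈ LinearMap.range J.mulVecLin := by
    intro w
    have h3 : S.mulVec w = ∑ k, w k • J.mulVecLin (Pi.single (r k) 1) := by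
      funext j
      rw [Matrix.mulVec, dotProduct, Finset.sum_apply]
      refine Finset.sum_congr rfl fun k _ => ?_
      rw [Pi.smul_apply, Matrix.mulVecLin_apply, Matrix.mulVec_single_one, smul_eq_mul, mul_comm]
      rfl
    rw [h3]
    exact Submodule.sum_mem _ fun k _ => Submodule.smul_mem _ _ ⟨_, rfl⟩
  exact h2 _


/-- The cokernel of the Jacobian map has a finite resolution if the derivations have one. -/
theorem hasRes_coker {R : Type} [CommRing R] (J : Matrix (Fin c) (Fin n) R)
    {m : ℕ} (h : HasRes R m (LinearMap.ker J.mulVecLin)) :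
    HasRes R (m + 2) ((Fin c → R) ⧸ LinearMap.range J.mulVecLin) := by
  have h1 : HasRes R (m + 1) (LinearMap.range J.mulVecLin) := by
    refine HasRes.succ_of_surj (P := Fin n → R) J.mulVecLin.rangeRestrict
      (LinearMap.surjective_rangeRestrict _) (LinearEquiv.ofEq _ _ ?_) h
    rw [LinearMap.ker_rangeRestrict]
  exact HasRes.succ_of_surj (P := Fin c → R) (LinearMap.range J.mulVecLin).mkQ
    (Submodule.mkQ_surjective _) (LinearEquiv.ofEq _ _ (Submodule.ker_mkQ _).symm) h1

/-- The kernel of a surjective matrix over a Noetherian local ring is free. -/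
theorem free_of_surjective {R : Type} [CommRing R] [IsLocalRing R] [IsNoetherianRing R]
    (J : Matrix (Fin c) (Fin n) R)
    (hs : Function.Surjective J.mulVecLin) : Module.Free R (LinearMap.ker J.mulVecLin) := by
  obtain ⟨s, hs'⟩ := Module.projective_lifting_property J.mulVecLin LinearMap.id hs
  have hs2 : ∀ v, J.mulVecLin (s v) = v := fun v => LinearMap.congr_fun hs' v
  let ρ : (Fin n → R) →ₗ[R] LinearMap.ker J.mulVecLin :=
    LinearMap.codRestrict _ (LinearMap.id - s ∘ₗ J.mulVecLin) (fun v => by
      rw [LinearMap.mem_ker, LinearMap.sub_apply, map_sub, LinearMap.id_apply,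
        LinearMap.comp_apply, hs2, sub_self])
  have hρ : ρ ∘ₗ (LinearMap.ker J.mulVecLin).subtype = LinearMap.id := by
    ext1 v
    apply Subtype.ext
    show (v : Fin n → R) - s (J.mulVecLin v) = v
    have : J.mulVecLin v = 0 := v.2
    rw [this, map_zero, sub_zero]
  have hproj : Module.Projective R (LinearMap.ker J.mulVecLin) :=
    Module.Projective.of_split _ _ hρ
  exact Module.free_of_flat_of_isLocalRing

end

section

variable {k : Type} [Field k] [CharZero k] {n c : ℕ} (q : Ideal (MvPolynomial (Fin n) k))
  [q.IsPrime]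
variable {A : Type} [CommRing A] [Algebra k A] [Algebra (MvPolynomial (Fin n) k) A]
  [IsScalarTower k (MvPolynomial (Fin n) k) A] [IsLocalization.AtPrime A q]

include q in
/-- If the derivations of a complete intersection have a finite resolution then the Jacobian map is
surjective. -/
theorem jac_surjective (g : Fin c → MvPolynomial (Fin n) k) (I : Ideal A)
    (hI : I = Ideal.span (Set.range fun j => algebraMap (MvPolynomial (Fin n) k) A (g j)))
    (hreg : ∀ (j : Fin c) (a : A), algebraMap (MvPolynomial (Fin n) k) A (g j) * a ∈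
      Ideal.span ((fun j => algebraMap (MvPolynomial (Fin n) k) A (g j)) '' {i | i ≠ j}) →
      a ∈ Ideal.span ((fun j => algebraMap (MvPolynomial (Fin n) k) A (g j)) '' {i | i ≠ j}))
    {m : ℕ} (hres : HasRes (A ⧸ I) m (LinearMap.ker (jac g I))) :
    Function.Surjective (jac g I) := by
  have hEFT : Algebra.EssFiniteType k A := by
    have : Algebra.EssFiniteType (MvPolynomial (Fin n) k) A :=
      Algebra.EssFiniteType.of_isLocalization _ q.primeCompl
    exact Algebra.EssFiniteType.comp k (MvPolynomial (Fin n) k) _
  have hN : IsNoetherianRing A :=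
    IsLocalization.isNoetherianRing q.primeCompl _ inferInstance
  let x : Fin n → A := fun i =>
    algebraMap (MvPolynomial (Fin n) k) _ (MvPolynomial.X i)
  have hx : ∀ p : MvPolynomial (Fin n) k, MvPolynomial.aeval x p =
      algebraMap (MvPolynomial (Fin n) k) _ p := by
    intro p
    have h1 := MvPolynomial.aeval_algebraMap_apply A
      (MvPolynomial.X : Fin n → MvPolynomial (Fin n) k) p
    refine h1.trans ?_
    rw [MvPolynomial.aeval_X_left_apply]
  have hx2 : (fun j => MvPolynomial.aeval x (g j)) = fun j =>
      algebraMap (MvPolynomial (Fin n) k) A (g j) :=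
    funext fun j => hx _
  have hres' := hasRes_coker (jmat g I) hres
  have hsub : Subsingleton ((Fin c → A ⧸ I) ⧸
      LinearMap.range (jmat g I).mulVecLin) := by
    refine subsingleton_of_res (A := A) x g I ?_ ?_ hres' ?_
    · rw [hx2]
      exact hI
    · intro j a ha
      rw [hx2] at ha ⊢
      rw [hx] at ha
      exact hreg j a ha
    · intro r v
      obtain ⟨v, rfl⟩ := Submodule.mkQ_surjective _ v
      rw [← map_smul]
      rw [Submodule.mkQ_apply, Submodule.Quotient.mk_eq_zero]
      have h1 : Ideal.Quotient.mk I
          (mat (fun j i => MvPolynomial.aeval x (MvPolynomial.pderiv i (g j))) r).det =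
          (Matrix.of fun k j => jmat g I j (r k)).det := by
        rw [RingHom.map_det]
        congr 1
        ext a b
        show Ideal.Quotient.mk I (MvPolynomial.aeval x (MvPolynomial.pderiv (r a) (g b))) = _
        rw [hx]
        rfl
      rw [h1]
      exact det_smul_mem_range (jmat g I) r v
  have h2 : LinearMap.range (jmat g I).mulVecLin = ⊤ :=
    Submodule.Quotient.subsingleton_iff.1 hsub
  exact LinearMap.range_eq_top.1 h2

end

end Pool.Agent.HV
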