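import Pool.Agent.HV.Phi

/-!
The product of the homotopies on the coevaluation element, and the minors.
-/

namespace Pool.Agent.HV

open TensorProduct Module

variable {K : Type} [Field K] {A : Type} [CommRing A] [Algebra K A]
variable {N : Type} [AddCommGroup N] [Module K N] [Module A N] [IsScalarTower K A N]
variable {n c : ℕ}

/-- the exterior monomials -/
noncomputable def emon (K : Type) [Field K] (n : ℕ) {c : ℕ} (r : Fin c → Fin n) : Lam K n :=
  ExteriorAlgebra.ιMulti K c (fun j => (Pi.single (r j) 1 : Fin n → K))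

theorem prod_eop (r : Fin c → Fin n) :
    (List.ofFn fun j => eop K (r j)).prod = LinearMap.mulLeft K (emon K n r) := by
  have h1 : ∀ i : Fin n, eop K i = Algebra.lmul K (Lam K n) (ExteriorAlgebra.ι K (Pi.single i 1)) :=
    fun i => rfl
  have h2 : (List.ofFn fun j => eop K (r j)) = (List.ofFn fun j =>
      (ExteriorAlgebra.ι K (Pi.single (r j) 1) : Lam K n)).map (Algebra.lmul K (Lam K n)) := by
    rw [List.map_ofFn]
    rfl
  rw [h2, ← map_list_prod]
  unfold emon
  rw [ExteriorAlgebra.ιMulti_apply]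
  rfl

theorem emon_perm (r : Fin c → Fin n) (σ : Equiv.Perm (Fin c)) :
    emon K n (r ∘ σ) = Equiv.Perm.sign σ • emon K n r := by
  unfold emon
  exact (ExteriorAlgebra.ιMulti K c).map_perm (fun j => (Pi.single (r j) 1 : Fin n → K)) σ

omit [Module A N] [IsScalarTower K A N] in
/-- expansion of the product -/
theorem prod_TT' (J : Fin c → Fin n → A) :
    (List.ofFn fun j => (TT' (N := N) (J j) (eop K))).prod =
      ∑ r : Fin c → Fin n, (∏ j, J j (r j)) • eps A N n (LinearMap.mulLeft K (emon K n r)) := by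
  classical
  have h := MultilinearMap.map_sum
    (MultilinearMap.mkPiAlgebraFin A c (A ⊗[K] Module.End K (Dual K N ⊗[K] Lam K n)))
    (fun (j : Fin c) (i : Fin n) => J j i • eps A N n (eop K i))
  rw [MultilinearMap.mkPiAlgebraFin_apply] at h
  refine Eq.trans ?_ (h.trans ?_)
  · rfl
  · refine Finset.sum_congr rfl fun r _ => ?_
    rw [MultilinearMap.map_smul_univ, MultilinearMap.mkPiAlgebraFin_apply]
    congr 1
    rw [← prod_eop, map_list_prod, List.map_ofFn]
    rfl

/-- the matrix of a family of columns -/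
def mat (J : Fin c → Fin n → A) (r : Fin c → Fin n) : Matrix (Fin c) (Fin c) A :=
  Matrix.of fun k j => J j (r k)

omit [Module A N] [IsScalarTower K A N] in
theorem fact_smul_prod (J : Fin c → Fin n → A) :
    (c.factorial : ℕ) • (List.ofFn fun j => (TT' (N := N) (J j) (eop K))).prod =
      ∑ r : Fin c → Fin n, (mat J r).det • eps A N n (LinearMap.mulLeft K (emon K n r)) := by
  classical
  rw [prod_TT']
  set E : (Fin c → Fin n) → A ⊗[K] Module.End K (Dual K N ⊗[K] Lam K n) :=
    fun r => eps A N n (LinearMap.mulLeft K (emon K n r)) with hE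
  have hperm : ∀ r (σ : Equiv.Perm (Fin c)), E (r ∘ σ) = Equiv.Perm.sign σ • E r := by
    intro r σ
    simp only [hE, emon_perm]
    rcases Int.units_eq_one_or (Equiv.Perm.sign σ) with h | h
    · rw [h, one_smul, one_smul]
    · rw [h, Units.neg_smul, one_smul, Units.neg_smul, one_smul, ← map_neg]
      congr 1
      ext w
      simp
  have h1 : ∀ σ : Equiv.Perm (Fin c), ∑ r : Fin c → Fin n, (∏ j, J j (r j)) • E r =
      ∑ r : Fin c → Fin n, (∏ j, J j (r (σ j))) • E (r ∘ σ) := by
    intro σ
    symm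
    exact Fintype.sum_equiv (Equiv.arrowCongr σ.symm (Equiv.refl (Fin n))) _ _ (fun r => by
      rfl)
  have h2 : ∑ σ : Equiv.Perm (Fin c), ∑ r : Fin c → Fin n, (∏ j, J j (r j)) • E r =
      (c.factorial : ℕ) • ∑ r : Fin c → Fin n, (∏ j, J j (r j)) • E r := by
    rw [Finset.sum_const, Finset.card_univ, Fintype.card_perm, Fintype.card_fin]
  rw [← h2, Finset.sum_congr rfl fun σ _ => h1 σ, Finset.sum_comm]
  refine Finset.sum_congr rfl fun r _ => ?_
  rw [Matrix.det_apply, Finset.sum_smul]
  refine Finset.sum_congr rfl fun σ _ => ?_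
  rw [hperm]
  have : (∏ i, mat J r (σ i) i) = ∏ j, J j (r (σ j)) := rfl
  rw [this]
  rcases Int.units_eq_one_or (Equiv.Perm.sign σ) with h | h
  · rw [h, one_smul, one_smul]
  · rw [h, Units.neg_smul, one_smul, Units.neg_smul, one_smul, smul_neg, neg_smul]

/-- If the minors vanish on `N`, so does the product. -/
theorem prod_eq_zero [CharZero K] (J : Fin c → Fin n → A)
    (hJ : ∀ (r : Fin c → Fin n) (v : N), (mat J r).det • v = 0) :
    aN K A N n (List.ofFn fun j => (TT' (N := N) (J j) (eop K))).prod = 0 := by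
  have h := congrArg (aN K A N n) (fact_smul_prod (K := K) (N := N) J)
  rw [map_sum, map_nsmul] at h
  have h0 : ∀ r : Fin c → Fin n, aN K A N n ((mat J r).det •
      eps A N n (LinearMap.mulLeft K (emon K n r))) = 0 := by
    intro r
    rw [eps_apply, TensorProduct.smul_tmul']
    apply LinearMap.ext
    intro z
    induction z using TensorProduct.induction_on with
    | zero => simp
    | add z w hz hw => rw [map_add, hz, hw]; simp
    | tmul v m =>
      rw [aN_tmul_tmul, smul_eq_mul, mul_one, hJ, TensorProduct.zero_tmul]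
      rfl
  rw [Finset.sum_eq_zero fun r _ => h0 r, ← Nat.cast_smul_eq_nsmul K] at h
  exact (smul_eq_zero.1 h).resolve_left (by exact_mod_cast Nat.factorial_ne_zero c)

/-! ### The coevaluation element -/

section

variable {ι : Type} [Fintype ι] (b : Basis ι K N)

/-- the coevaluation element -/
noncomputable def phi (n : ℕ) : N ⊗[K] (Dual K N ⊗[K] Lam K n) :=
  ∑ i, b i ⊗ₜ[K] (b.coord i ⊗ₜ[K] (1 : Lam K n))

omit [Module A N] [IsScalarTower K A N] in
theorem ell_phi : ell K N n (phi b n) = (Fintype.card ι : K) := by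
  unfold phi
  rw [map_sum]
  simp only [ell_tmul, map_one, mul_one, Basis.coord_apply, Basis.repr_self,
    Finsupp.single_eq_same, Finset.sum_const, Finset.card_univ, nsmul_eq_mul]

theorem bal_phi : Bal A (phi b n) := by
  classical
  intro a
  unfold phi
  rw [map_sum, map_sum]
  have e1 : ∀ i, aN K A N n (rho A N n (a ⊗ₜ[K] (1 : A)))
      (b i ⊗ₜ[K] (b.coord i ⊗ₜ[K] (1 : Lam K n))) =
      ∑ k, (b.coord k (a • b i)) • (b k ⊗ₜ[K] (b.coord i ⊗ₜ[K] (1 : Lam K n))) := by
    intro i
    rw [rho_tmul, aN_tmul_tmul, map_one, LinearMap.rTensor_tmul]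
    have : a • b i = ∑ k, (b.coord k (a • b i)) • b k := by
      simp only [Basis.coord_apply]
      exact (b.sum_repr (a • b i)).symm
    nth_rewrite 1 [this]
    rw [TensorProduct.sum_tmul]
    rfl
  have e2 : ∀ i, aN K A N n (rho A N n ((1 : A) ⊗ₜ[K] a))
      (b i ⊗ₜ[K] (b.coord i ⊗ₜ[K] (1 : Lam K n))) =
      ∑ k, (b.coord i (a • b k)) • (b i ⊗ₜ[K] (b.coord k ⊗ₜ[K] (1 : Lam K n))) := by
    intro i
    rw [rho_tmul, aN_tmul_tmul, one_smul, LinearMap.rTensor_tmul]
    have : rN A N a (b.coord i) = ∑ k, (b.coord i (a • b k)) • b.coord k := by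
      apply b.ext
      intro l
      rw [rN_apply, LinearMap.sum_apply]
      simp only [LinearMap.smul_apply, Basis.coord_apply, Basis.repr_self, smul_eq_mul]
      rw [Finset.sum_eq_single l]
      · rw [Finsupp.single_eq_same, mul_one]
      · intro k _ hk
        rw [Finsupp.single_eq_of_ne hk, mul_zero]
      · intro h
        exact (h (Finset.mem_univ l)).elim
    rw [this, TensorProduct.sum_tmul, TensorProduct.tmul_sum]
    refine Finset.sum_congr rfl fun k _ => ?_
    rw [← TensorProduct.smul_tmul', TensorProduct.tmul_smul]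
  rw [Finset.sum_congr rfl fun i _ => e1 i, Finset.sum_congr rfl fun i _ => e2 i,
    Finset.sum_comm]

theorem TT_iop_phi (P : Fin n → A ⊗[K] A) : aN K A N n (TT P (iop K)) (phi b n) = 0 := by
  have h : ∀ i : Fin n, aN K A N n (eps A N n (iop K i)) (phi b n) = 0 := by
    intro i
    unfold phi
    rw [map_sum]
    refine Finset.sum_eq_zero fun k _ => ?_
    rw [eps_apply, aN_tmul_tmul, LinearMap.lTensor_tmul, iop_one, TensorProduct.tmul_zero,
      TensorProduct.tmul_zero]
  unfold TT
  rw [map_sum, LinearMap.sum_apply]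
  refine Finset.sum_eq_zero fun i _ => ?_
  rw [map_mul, Module.End.mul_apply, h, map_zero]

end

end Pool.Agent.HV
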