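import Pool.Agent.HV.Kos2

/-!
The coevaluation element, the trace functional, and the minors.
-/

namespace Pool.Agent.HV

open TensorProduct Module

variable {K : Type} [Field K] {A : Type} [CommRing A] [Algebra K A]
variable {N : Type} [AddCommGroup N] [Module K N] [Module A N] [IsScalarTower K A N]
variable {n : ℕ}

variable (K A N n) in
/-- the action on `N ⊗ (N* ⊗ Λ)` -/
noncomputable def aN : A ⊗[K] Module.End K (Dual K N ⊗[K] Lam K n) →ₐ[K]
    Module.End K (N ⊗[K] (Dual K N ⊗[K] Lam K n)) :=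
  act (K := K) (A := A) (X := Dual K N ⊗[K] Lam K n) N

theorem aN_tmul_tmul (a : A) (e : Module.End K (Dual K N ⊗[K] Lam K n)) (v : N)
    (m : Dual K N ⊗[K] Lam K n) :
    aN K A N n (a ⊗ₜ[K] e) (v ⊗ₜ[K] m) = (a • v) ⊗ₜ[K] e m := rfl

/-! ### The functional -/

variable (K N n) in
/-- The trace functional. -/
noncomputable def ell : N ⊗[K] (Dual K N ⊗[K] Lam K n) →ₗ[K] K :=
  (TensorProduct.lid K K).toLinearMap ∘ₗ
    (TensorProduct.map (contractRight K N) (aug K n).toLinearMap) ∘ₗ
      (TensorProduct.assoc K N (Dual K N) (Lam K n)).symm.toLinearMap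

omit [Module A N] [IsScalarTower K A N] in
theorem ell_tmul (v : N) (f : Dual K N) (w : Lam K n) :
    ell K N n (v ⊗ₜ[K] (f ⊗ₜ[K] w)) = f v * aug K n w := by
  simp [ell]

theorem ell_rho (a : A) (l : Module.End K (Lam K n)) (z : N ⊗[K] (Dual K N ⊗[K] Lam K n)) :
    ell K N n (aN K A N n (rho A N n (a ⊗ₜ[K] (1 : A) - (1 : A) ⊗ₜ[K] a) * eps A N n l) z) = 0 := by
  rw [map_mul, Module.End.mul_apply]
  generalize aN K A N n (eps A N n l) z = z'
  rw [map_sub, map_sub, LinearMap.sub_apply, map_sub, sub_eq_zero]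
  induction z' using TensorProduct.induction_on with
  | zero => simp
  | add z w hz hw => simp only [map_add, hz, hw]
  | tmul v m =>
    induction m using TensorProduct.induction_on with
    | zero => simp
    | add z w hz hw => simp only [TensorProduct.tmul_add, map_add, hz, hw]
    | tmul f w =>
      rw [rho_tmul, rho_tmul, aN_tmul_tmul, aN_tmul_tmul, LinearMap.rTensor_tmul,
        LinearMap.rTensor_tmul, one_smul, ell_tmul, ell_tmul, map_one, rN_apply]
      rfl

theorem ell_eop (C : A ⊗[K] A) (i : Fin n) (z : N ⊗[K] (Dual K N ⊗[K] Lam K n)) :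
    ell K N n (aN K A N n (rho A N n C * eps A N n (eop K i)) z) = 0 := by
  induction C using TensorProduct.induction_on with
  | zero => simp
  | add C C' h h' => simp only [map_add, add_mul, LinearMap.add_apply, h, h', add_zero]
  | tmul a b =>
    rw [rho_tmul, eps_apply, Algebra.TensorProduct.tmul_mul_tmul, mul_one]
    induction z using TensorProduct.induction_on with
    | zero => simp
    | add z w hz hw => simp only [map_add, hz, hw, add_zero]
    | tmul v m =>
      induction m using TensorProduct.induction_on with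
      | zero => simp
      | add z w hz hw => simp only [TensorProduct.tmul_add, map_add, hz, hw, add_zero]
      | tmul f w =>
        rw [aN_tmul_tmul]
        rw [Module.End.mul_apply, LinearMap.lTensor_tmul, LinearMap.rTensor_tmul, ell_tmul,
          aug_eop, mul_zero]

/-! ### Balanced elements -/

/-- balanced elements -/
def Bal (A : Type) [CommRing A] [Algebra K A] [Module A N] [IsScalarTower K A N]
    (z : N ⊗[K] (Dual K N ⊗[K] Lam K n)) : Prop :=
  ∀ a : A, aN K A N n (rho A N n (a ⊗ₜ[K] (1 : A))) z = aN K A N n (rho A N n ((1 : A) ⊗ₜ[K] a)) z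

theorem Bal.apply {z : N ⊗[K] (Dual K N ⊗[K] Lam K n)} (hz : Bal A z) (C : A ⊗[K] A) :
    aN K A N n (rho A N n C) z =
      aN K A N n (rho A N n ((Algebra.TensorProduct.lmul' K (S := A) C) ⊗ₜ[K] (1 : A))) z := by
  induction C using TensorProduct.induction_on with
  | zero => simp
  | add C C' h h' => simp only [map_add, LinearMap.add_apply, h, h', TensorProduct.add_tmul]
  | tmul a b =>
    rw [Algebra.TensorProduct.lmul'_apply_tmul]
    have e : a ⊗ₜ[K] b = (a ⊗ₜ[K] (1 : A)) * ((1 : A) ⊗ₜ[K] b) := by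
      rw [Algebra.TensorProduct.tmul_mul_tmul, mul_one, one_mul]
    have e' : (a * b) ⊗ₜ[K] (1 : A) = (a ⊗ₜ[K] (1 : A)) * (b ⊗ₜ[K] (1 : A)) := by
      rw [Algebra.TensorProduct.tmul_mul_tmul, mul_one]
    rw [e, e', map_mul, map_mul, map_mul, map_mul, Module.End.mul_apply, Module.End.mul_apply, hz]

theorem Bal.rho_eps {z : N ⊗[K] (Dual K N ⊗[K] Lam K n)} (hz : Bal A z) (C : A ⊗[K] A)
    (l : Module.End K (Lam K n)) : Bal A (aN K A N n (rho A N n C * eps A N n l) z) := by
  intro a
  have key : ∀ C' : A ⊗[K] A, aN K A N n (rho A N n C') (aN K A N n (rho A N n C * eps A N n l) z) =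
      aN K A N n (rho A N n C * eps A N n l) (aN K A N n (rho A N n C') z) := by
    intro C'
    rw [← Module.End.mul_apply, ← Module.End.mul_apply, ← map_mul, ← map_mul]
    congr 2
    rw [← mul_assoc, ← map_mul, mul_comm C' C, map_mul, mul_assoc, mul_assoc,
      Pool.Agent.HV.rho_eps]
  rw [key, key, hz]

theorem Bal.add {z w : N ⊗[K] (Dual K N ⊗[K] Lam K n)} (hz : Bal A z) (hw : Bal A w) :
    Bal A (z + w) := by
  intro a
  rw [map_add, map_add, hz, hw]

theorem Bal.zero : Bal A (0 : N ⊗[K] (Dual K N ⊗[K] Lam K n)) := by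
  intro a
  rw [map_zero, map_zero]

theorem Bal.sum {ι : Type} (s : Finset ι) {z : ι → N ⊗[K] (Dual K N ⊗[K] Lam K n)}
    (hz : ∀ i, Bal A (z i)) : Bal A (∑ i ∈ s, z i) := by
  classical
  induction s using Finset.induction_on with
  | empty => rw [Finset.sum_empty]; exact Bal.zero
  | insert a s ha ih => rw [Finset.sum_insert ha]; exact (hz a).add ih

theorem Bal.TT {z : N ⊗[K] (Dual K N ⊗[K] Lam K n)} (hz : Bal A z) (P : Fin n → A ⊗[K] A)
    (S : Fin n → Module.End K (Lam K n)) : Bal A (aN K A N n (TT P S) z) := by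
  unfold Pool.Agent.HV.TT
  rw [map_sum, LinearMap.sum_apply]
  exact Bal.sum _ fun i => hz.rho_eps _ _

/-- the simplified operators -/
noncomputable def TT' (J : Fin n → A) (S : Fin n → Module.End K (Lam K n)) :
    A ⊗[K] Module.End K (Dual K N ⊗[K] Lam K n) := ∑ i, J i • eps A N n (S i)

theorem rho_one_mul (a : A) (z : A ⊗[K] Module.End K (Dual K N ⊗[K] Lam K n)) :
    rho A N n (a ⊗ₜ[K] (1 : A)) * z = a • z := by
  rw [rho_tmul, map_one]
  have : (1 : Module.End K (Dual K N)).rTensor (Lam K n) = 1 := LinearMap.rTensor_id _ _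
  rw [this]
  induction z using TensorProduct.induction_on with
  | zero => simp
  | add z w hz hw => rw [mul_add, smul_add, hz, hw]
  | tmul b e =>
    rw [Algebra.TensorProduct.tmul_mul_tmul, one_mul, TensorProduct.smul_tmul', smul_eq_mul]

theorem Bal.TT_eq {z : N ⊗[K] (Dual K N ⊗[K] Lam K n)} (hz : Bal A z) (P : Fin n → A ⊗[K] A)
    (S : Fin n → Module.End K (Lam K n)) : aN K A N n (Pool.Agent.HV.TT P S) z =
      aN K A N n (TT' (fun i => Algebra.TensorProduct.lmul' K (S := A) (P i)) S) z := by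
  unfold Pool.Agent.HV.TT TT'
  rw [map_sum, map_sum, LinearMap.sum_apply, LinearMap.sum_apply]
  refine Finset.sum_congr rfl fun i _ => ?_
  rw [← rho_one_mul, Pool.Agent.HV.rho_eps, Pool.Agent.HV.rho_eps, map_mul, map_mul,
    Module.End.mul_apply, Module.End.mul_apply, hz.apply]

end Pool.Agent.HV
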