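import Pool.Agent.HV.Der

/-!
The quotient of a regular local ring by part of a regular system of parameters is regular.
-/

namespace Pool.Agent.HV

open IsLocalRing Module

section

variable {A : Type} [CommRing A] [IsRegularLocalRing A] {c : ℕ}

theorem isRegular_quot (f : Fin c → maximalIdeal A)
    (hli : LinearIndependent (ResidueField A) (fun j => (maximalIdeal A).toCotangent (f j)))
    (I : Ideal A) (hI : I = Ideal.span (Set.range fun j => (f j : A))) :
    IsRegularLocalRing (A ⧸ I) := by
  classical
  have hIm : I ≤ maximalIdeal A := by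
    rw [hI, Ideal.span_le]
    rintro _ ⟨j, rfl⟩
    exact (f j).2
  have hIt : I ≠ ⊤ := fun h => (maximalIdeal.isMaximal A).ne_top (top_le_iff.1 (h ▸ hIm))
  have hnt : Nontrivial (A ⧸ I) := Ideal.Quotient.nontrivial_iff.2 hIt
  have hloc : IsLocalRing (A ⧸ I) :=
    IsLocalRing.of_surjective' (Ideal.Quotient.mk I) Ideal.Quotient.mk_surjective
  set κ := ResidueField A
  set V := CotangentSpace A
  set v : Fin c → V := fun j => (maximalIdeal A).toCotangent (f j) with hv
  set W : Submodule κ V := Submodule.span κ (Set.range v) with hW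
  have hd : ((finrank κ V : ℕ) : WithBot ℕ∞) = ringKrullDim A :=
    (IsRegularLocalRing.iff_finrank_cotangentSpace A).1 inferInstance
  have hWc : finrank κ W = c := by
    rw [hW, finrank_span_eq_card hli, Fintype.card_fin]
  have hsum : finrank κ (V ⧸ W) + c = finrank κ V := by
    rw [← hWc]
    exact Submodule.finrank_quotient_add_finrank W
  set e : ℕ := finrank κ (V ⧸ W) with he
  let b : Basis (Fin e) κ (V ⧸ W) := Module.finBasis κ (V ⧸ W)
  have hz : ∀ i, ∃ z : maximalIdeal A, W.mkQ ((maximalIdeal A).toCotangent z) = b i := by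
    intro i
    obtain ⟨w, hw⟩ := Submodule.mkQ_surjective W (b i)
    obtain ⟨z, hz⟩ := (maximalIdeal A).toCotangent_surjective w
    exact ⟨z, by rw [hz, hw]⟩
  choose z hz using hz
  have hspan : Submodule.span κ
      ((maximalIdeal A).toCotangent '' (Set.range f ∪ Set.range z)) = ⊤ := by
    rw [eq_top_iff]
    intro x _
    have h1 : W.mkQ x = ∑ i, b.repr (W.mkQ x) i • b i := (b.sum_repr _).symm
    have h2 : x - ∑ i, b.repr (W.mkQ x) i • (show V from (maximalIdeal A).toCotangent (z i)) ∈ W := by
      apply (Submodule.Quotient.mk_eq_zero W).1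
      have h6 : ∀ t : V, Submodule.Quotient.mk t = W.mkQ t := fun _ => rfl
      rw [h6, map_sub, map_sum, sub_eq_zero]
      refine h1.trans ?_
      refine Finset.sum_congr rfl fun i _ => ?_
      rw [map_smul]
      congr 1
      exact (hz i).symm
    have h3 : W ≤ Submodule.span κ
        ((maximalIdeal A).toCotangent '' (Set.range f ∪ Set.range z)) := by
      refine Submodule.span_mono ?_
      rintro _ ⟨j, rfl⟩
      exact ⟨f j, Or.inl ⟨j, rfl⟩, rfl⟩
    have h4 : ∑ i, b.repr (W.mkQ x) i • (show V from (maximalIdeal A).toCotangent (z i)) ∈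
        Submodule.span κ ((maximalIdeal A).toCotangent '' (Set.range f ∪ Set.range z)) := by
      refine Submodule.sum_mem _ fun i _ => Submodule.smul_mem _ _ (Submodule.subset_span ?_)
      exact ⟨z i, Or.inr ⟨i, rfl⟩, rfl⟩
    have h5 := Submodule.add_mem _ (h3 h2) h4
    rwa [sub_add_cancel] at h5
  have hspan2 : Submodule.span A (Set.range f ∪ Set.range z) = ⊤ :=
    CotangentSpace.span_image_eq_top_iff.1 hspan
  have hmax : maximalIdeal (A ⧸ I) =
      Submodule.span (A ⧸ I) (Set.range fun i => Ideal.Quotient.mk I (z i : A)) := by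
    apply le_antisymm
    · intro y hy
      obtain ⟨a, rfl⟩ := Ideal.Quotient.mk_surjective y
      have ha : a ∈ maximalIdeal A := by
        rw [mem_maximalIdeal, mem_nonunits_iff]
        intro hu
        rw [mem_maximalIdeal, mem_nonunits_iff] at hy
        exact hy (hu.map _)
      have h1 : (⟨a, ha⟩ : maximalIdeal A) ∈ Submodule.span A (Set.range f ∪ Set.range z) := by
        rw [hspan2]; trivial
      have h2 : ∀ w ∈ Submodule.span A (Set.range f ∪ Set.range z),
          Ideal.Quotient.mk I (w : A) ∈ Submodule.span (A ⧸ I)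
            (Set.range fun i => Ideal.Quotient.mk I (z i : A)) := by
        intro w hw
        induction hw using Submodule.span_induction with
        | mem w hw =>
          rcases hw with ⟨j, rfl⟩ | ⟨i, rfl⟩
          · have : Ideal.Quotient.mk I (f j : A) = 0 := by
              rw [Ideal.Quotient.eq_zero_iff_mem, hI]
              exact Ideal.subset_span ⟨j, rfl⟩
            rw [this]
            exact Submodule.zero_mem _
          · exact Submodule.subset_span ⟨i, rfl⟩
        | zero => exact Submodule.zero_mem _
        | add x y _ _ hx hy =>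
          have := Submodule.add_mem _ hx hy
          rwa [← map_add] at this
        | smul a x _ hx =>
          have := Submodule.smul_mem _ (Ideal.Quotient.mk I a) hx
          rwa [smul_eq_mul, ← map_mul] at this
      exact h2 _ h1
    · refine Submodule.span_le.2 ?_
      rintro _ ⟨i, rfl⟩
      show Ideal.Quotient.mk I (z i : A) ∈ maximalIdeal (A ⧸ I)
      rw [mem_maximalIdeal, mem_nonunits_iff]
      intro hu
      obtain ⟨y, hy⟩ := hu.exists_right_inv
      obtain ⟨y, rfl⟩ := Ideal.Quotient.mk_surjective y
      rw [← map_mul, ← map_one (Ideal.Quotient.mk I), Ideal.Quotient.eq] at hy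
      have h1 : (z i : A) * y ∈ maximalIdeal A := Ideal.mul_mem_right _ _ (z i).2
      have h2 : (1 : A) ∈ maximalIdeal A := by
        have := Ideal.sub_mem _ h1 (hIm hy)
        rwa [sub_sub_cancel] at this
      exact (maximalIdeal.isMaximal A).ne_top ((Ideal.eq_top_iff_one _).2 h2)
  apply IsRegularLocalRing.of_spanFinrank_maximalIdeal_le
  have h1 : (maximalIdeal (A ⧸ I)).spanFinrank ≤ e := by
    rw [hmax]
    refine (Submodule.spanFinrank_span_le_ncard_of_finite (Set.finite_range _)).trans ?_
    rw [← Set.image_univ]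
    refine (Set.ncard_image_le Set.finite_univ).trans ?_
    rw [Set.ncard_univ, Nat.card_eq_fintype_card, Fintype.card_fin]
  have h2 : ringKrullDim A ≤ ringKrullDim (A ⧸ I) + c := by
    have h3 := ringKrullDim_le_ringKrullDim_quotient_add_card (R := A)
      (Finset.univ.image fun j => (f j : A)) (by
        intro a ha
        rw [Finset.coe_image, Set.mem_image] at ha
        obtain ⟨j, -, rfl⟩ := ha
        rw [SetLike.mem_coe, IsLocalRing.ringJacobson_eq_maximalIdeal]
        exact (f j).2)
    have h4 : Ideal.span ((Finset.univ.image fun j => (f j : A) : Finset A) : Set A) = I := by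
      rw [Finset.coe_image, Finset.coe_univ, Set.image_univ, hI]
    rw [h4] at h3
    refine h3.trans ?_
    gcongr
    exact (Finset.card_image_le).trans (by rw [Finset.card_univ, Fintype.card_fin])
  rw [← hd, ← hsum] at h2
  have h5 : ((e : ℕ) : WithBot ℕ∞) + c ≤ ringKrullDim (A ⧸ I) + c := by
    have : (((e + c : ℕ) : ℕ) : WithBot ℕ∞) = ((e : ℕ) : WithBot ℕ∞) + c := by push_cast; rfl
    rw [← this]
    exact h2
  rw [ENat.WithBot.add_le_add_natCast_right_iff] at h5
  refine le_trans ?_ h5
  exact_mod_cast h1

end

section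

variable {k : Type} [Field k] {n c : ℕ} (q : Ideal (MvPolynomial (Fin n) k))
  [q.IsPrime]
variable {A : Type} [CommRing A] [Algebra k A] [Algebra (MvPolynomial (Fin n) k) A]
  [IsScalarTower k (MvPolynomial (Fin n) k) A] [IsLocalization.AtPrime A q]

include q in
/-- The Jacobian criterion: if the Jacobian map is surjective then the quotient is regular. -/
theorem isRegular_of_jac [IsRegularLocalRing A] (g : Fin c → MvPolynomial (Fin n) k) (I : Ideal A)
    (hIt : I ≠ ⊤)
    (hI : I = Ideal.span (Set.range fun j => algebraMap (MvPolynomial (Fin n) k) A (g j)))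
    (hs : Function.Surjective (jac g I)) : IsRegularLocalRing (A ⧸ I) := by
  classical
  have hIm : I ≤ maximalIdeal A := le_maximalIdeal hIt
  have hgm : ∀ j, algebraMap (MvPolynomial (Fin n) k) A (g j) ∈ I := by
    intro j
    rw [hI]
    exact Ideal.subset_span ⟨j, rfl⟩
  refine isRegular_quot (fun j => ⟨algebraMap (MvPolynomial (Fin n) k) A (g j), hIm (hgm j)⟩) ?_ I hI
  rw [Fintype.linearIndependent_iff]
  intro co hco l
  -- lift the coefficients
  have hlift : ∀ j, ∃ a : A, residue A a = co j := fun j => residue_surjective (co j)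
  choose a ha using hlift
  have h1 : ∑ j, co j • (show CotangentSpace A from (maximalIdeal A).toCotangent
      ⟨algebraMap (MvPolynomial (Fin n) k) A (g j), hIm (hgm j)⟩) =
      (maximalIdeal A).toCotangent (∑ j, a j •
        (⟨algebraMap (MvPolynomial (Fin n) k) A (g j), hIm (hgm j)⟩ : maximalIdeal A)) := by
    rw [map_sum]
    refine Finset.sum_congr rfl fun j _ => ?_
    rw [map_smul, ← ha]
    rfl
  have h2 : (∑ j, a j • algebraMap (MvPolynomial (Fin n) k) A (g j)) ∈ maximalIdeal A ^ 2 := by
    have h3 := (Ideal.toCotangent_eq_zero _ _).1 (h1.symm.trans hco)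
    have h4 : ((∑ j, a j • (⟨algebraMap (MvPolynomial (Fin n) k) A (g j), hIm (hgm j)⟩ :
        maximalIdeal A) : maximalIdeal A) : A) =
        ∑ j, a j • algebraMap (MvPolynomial (Fin n) k) A (g j) := by
      rw [AddSubmonoidClass.coe_finsetSum]
      rfl
    rw [h4] at h3
    exact h3
  -- a derivation with `D f_j = δ_{lj}` modulo `I`
  obtain ⟨w, hw⟩ := hs (Pi.single l 1)
  have hlw : ∀ i, ∃ b : A, Ideal.Quotient.mk I b = w i := fun i => Ideal.Quotient.mk_surjective _
  choose b hb using hlw
  obtain ⟨D, hD⟩ := exists_der (k := k) (A := A) q.primeCompl b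
  have h5 : ∀ j, Ideal.Quotient.mk I (D (algebraMap (MvPolynomial (Fin n) k) A (g j))) =
      (Pi.single l 1 : Fin c → A ⧸ I) j := by
    intro j
    have h6 := der_poly (D.compAlgebraMap (MvPolynomial (Fin n) k)) (g j)
    have h7 : D.compAlgebraMap (MvPolynomial (Fin n) k) (g j) =
      D (algebraMap (MvPolynomial (Fin n) k) A (g j)) := rfl
    rw [← h7, h6, ← hw, jac_apply, map_sum]
    refine Finset.sum_congr rfl fun i _ => ?_
    have h8 : D.compAlgebraMap (MvPolynomial (Fin n) k) (MvPolynomial.X i) = b i := hD i
    rw [h8, Algebra.smul_def, map_mul, hb]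
    rfl
  have h9 : ∀ x ∈ maximalIdeal A ^ 2, D x ∈ maximalIdeal A := by
    intro x hx
    rw [pow_two] at hx
    refine Submodule.mul_induction_on hx ?_ ?_
    · intro y hy z hz
      rw [Derivation.leibniz]
      exact Ideal.add_mem _ (Ideal.mul_mem_right _ _ hy) (Ideal.mul_mem_right _ _ hz)
    · intro y z hy hz
      rw [map_add]
      exact Ideal.add_mem _ hy hz
  have h10 := h9 _ h2
  rw [map_sum] at h10
  have h11 : ∀ j, D (a j • algebraMap (MvPolynomial (Fin n) k) A (g j)) - (if j = l then a l else 0) ∈
      maximalIdeal A := by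
    intro j
    rw [smul_eq_mul, Derivation.leibniz, smul_eq_mul, smul_eq_mul]
    have h12 : algebraMap (MvPolynomial (Fin n) k) A (g j) * D (a j) ∈ maximalIdeal A :=
      Ideal.mul_mem_right _ _ (hIm (hgm j))
    have h13 : a j * D (algebraMap (MvPolynomial (Fin n) k) A (g j)) - (if j = l then a l else 0) ∈
        maximalIdeal A := by
      apply hIm
      rw [← Ideal.Quotient.eq_zero_iff_mem, map_sub, map_mul, h5]
      split_ifs with hjl
      · subst hjl
        rw [Pi.single_eq_same, mul_one, sub_self]
      · rw [Pi.single_eq_of_ne hjl, mul_zero, map_zero, sub_zero]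
    have := Ideal.add_mem _ h13 h12
    convert this using 1
    ring
  have h14 : a l ∈ maximalIdeal A := by
    have h15 := Ideal.sum_mem _ (t := Finset.univ) fun j _ => h11 j
    rw [Finset.sum_sub_distrib] at h15
    rw [Finset.sum_ite_eq' Finset.univ l, if_pos (Finset.mem_univ l)] at h15
    have h16 := Ideal.sub_mem _ h10 h15
    rwa [sub_sub_cancel] at h16
  rw [← ha l]
  exact (residue_eq_zero_iff _).2 h14

end

end Pool.Agent.HV
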