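import Pool.Agent.HV.Acyc

/-!
Finite projective resolutions, and acyclicity of modules which have one.
-/

namespace Pool.Agent.HV

open TensorProduct Module

/-- `N` has a projective resolution `0 → P_{n-1} → ... → P_0 → N → 0`. -/
def HasRes (B : Type) [CommRing B] : ℕ → (N : Type) → [AddCommGroup N] → [Module B N] → Prop
  | 0, N, _, _ => Subsingleton N
  | n + 1, N, _, _ => ∃ (P : Type) (_ : AddCommGroup P) (_ : Module B P)
      (_ : Module.Projective B P) (g : P →ₗ[B] N),
      Function.Surjective g ∧ HasRes B n (LinearMap.ker g)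

theorem HasRes.equiv {B : Type} [CommRing B] : ∀ {n : ℕ} {N N' : Type} [AddCommGroup N]
    [Module B N] [AddCommGroup N'] [Module B N'] (_ : N ≃ₗ[B] N'), HasRes B n N → HasRes B n N'
  | 0, N, N', _, _, _, _, e, h => by
    have : Subsingleton N := h
    exact e.symm.toEquiv.subsingleton
  | n + 1, N, N', _, _, _, _, e, h => by
    obtain ⟨P, _, _, hP, g, hg, hk⟩ := h
    refine ⟨P, inferInstance, inferInstance, hP, e.toLinearMap ∘ₗ g,
      e.surjective.comp hg, ?_⟩
    have : LinearMap.ker (e.toLinearMap ∘ₗ g) = LinearMap.ker g := by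
      rw [LinearMap.ker_comp, LinearEquiv.ker]
      rfl
    rw [this]
    exact hk

theorem HasRes.succ_of_surj {B : Type} [CommRing B] {n : ℕ} {P N M : Type} [AddCommGroup N]
    [Module B N] [AddCommGroup P] [Module B P] [AddCommGroup M] [Module B M]
    [Module.Projective B P] (g : P →ₗ[B] N)
    (hg : Function.Surjective g) (e : M ≃ₗ[B] LinearMap.ker g) (h : HasRes B n M) :
    HasRes B (n + 1) N :=
  ⟨P, inferInstance, inferInstance, inferInstance, g, hg, h.equiv e⟩

/-- From a resolution given by an infinite sequence of maps. -/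
theorem HasRes.of_seq {B : Type} [CommRing B] (P : ℕ → Type) [∀ i, AddCommGroup (P i)]
    [∀ i, Module B (P i)] [∀ i, Module.Projective B (P i)] (d : ∀ i, P (i + 1) →ₗ[B] P i)
    (hd : ∀ i, LinearMap.range (d (i + 1)) = LinearMap.ker (d i)) (m : ℕ)
    (hm : ∀ i, m ≤ i → Subsingleton (P i)) :
    ∀ (n i : ℕ), m ≤ i + n → HasRes B (n + 1) (LinearMap.range (d i)) := by
  intro n
  induction n with
  | zero =>
    intro i hi
    have hs : Subsingleton (P i) := hm i (by omega)
    refine ⟨PUnit, inferInstance, inferInstance, inferInstance, 0, ?_, ?_⟩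
    · intro x
      exact ⟨0, Subsingleton.elim _ _⟩
    · show Subsingleton _
      infer_instance
  | succ n ih =>
    intro i hi
    refine ⟨P (i + 1), inferInstance, inferInstance, inferInstance, (d i).rangeRestrict,
      LinearMap.surjective_rangeRestrict _, ?_⟩
    rw [LinearMap.ker_rangeRestrict, ← hd i]
    exact ih (i + 1) (by omega)

/-- From a resolution given by an infinite sequence of maps. -/
theorem HasRes.of_resolution {B : Type} [CommRing B] {N : Type} [AddCommGroup N] [Module B N]
    (P : ℕ → Type) [∀ i, AddCommGroup (P i)]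
    [∀ i, Module B (P i)] [∀ i, Module.Projective B (P i)] (d : ∀ i, P (i + 1) →ₗ[B] P i)
    (ε : P 0 →ₗ[B] N) (hε : Function.Surjective ε)
    (h0 : LinearMap.range (d 0) = LinearMap.ker ε)
    (hd : ∀ i, LinearMap.range (d (i + 1)) = LinearMap.ker (d i)) (m : ℕ)
    (hm : ∀ i, m ≤ i → Subsingleton (P i)) : HasRes B (m + 2) N := by
  refine ⟨P 0, inferInstance, inferInstance, inferInstance, ε, hε, ?_⟩
  rw [← h0]
  exact HasRes.of_seq P d hd m hm m 0 (by omega)

variable {K : Type} [Field K] {A : Type} [CommRing A] [Algebra K A]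
variable {X : Type} [AddCommGroup X] [Module K X]
variable {c : ℕ} (κ : Kos K A X c)
variable {W : Type} [AddCommGroup W] [Module K W] (y : Fin c → Module.End K W)
variable {B : Type} [CommRing B] [Algebra K B] [Algebra A B] [IsScalarTower K A B]

/-- The hypothesis that `B` is a complete intersection in `A`. -/
structure Kos.CI (κ : Kos K A X c) (B : Type) [CommRing B] [Algebra A B] : Prop where
  surj : Function.Surjective (algebraMap A B)
  ker : RingHom.ker (algebraMap A B) = Ideal.span (Set.range κ.f)
  reg : ∀ (j : Fin c) (a : A), κ.f j * a ∈ Ideal.span (κ.f '' {i | i ≠ j}) →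
    a ∈ Ideal.span (κ.f '' {i | i ≠ j})

variable {κ y}

/-- Free modules are acyclic. -/
theorem Kos.CI.acyc_free (H : κ.CI B) (hy : ∀ j k, y j * y k = y k * y j) (h2 : (2 : K) ≠ 0)
    (j : Fin c) (hyj : Function.Bijective (y j)) (I : Type) : κ.Acyc y (I →₀ B) := by
  classical
  set J : Ideal A := Ideal.span (κ.f '' {i | i ≠ j}) with hJ
  have hJle : J ≤ RingHom.ker (algebraMap A B) := by
    rw [H.ker]
    exact Ideal.span_mono (Set.image_subset_range _ _)
  let p0 : (A ⧸ J) →ₗ[A] B := Submodule.liftQ J (Algebra.linearMap A B) (by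
    intro a ha
    exact hJle ha)
  have hp0 : ∀ a : A, p0 (Submodule.Quotient.mk a) = algebraMap A B a := fun a => rfl
  have hp0s : Function.Surjective p0 := by
    intro b
    obtain ⟨a, rfl⟩ := H.surj b
    exact ⟨Submodule.Quotient.mk a, rfl⟩
  have hp0k : ∀ v : A ⧸ J, p0 v = 0 → ∃ v', v = κ.f j • v' := by
    intro v hv
    obtain ⟨a, rfl⟩ := Submodule.Quotient.mk_surjective _ v
    rw [hp0] at hv
    have hv' : a ∈ RingHom.ker (algebraMap A B) := hv
    rw [H.ker] at hv'
    have hr : Set.range κ.f = insert (κ.f j) (κ.f '' {i | i ≠ j}) := by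
      ext x
      simp only [Set.mem_range, Set.mem_insert_iff, Set.mem_image, Set.mem_ofPred_eq]
      constructor
      · rintro ⟨i, rfl⟩
        by_cases h : i = j
        · left; rw [h]
        · right; exact ⟨i, h, rfl⟩
      · rintro (rfl | ⟨i, _, rfl⟩)
        · exact ⟨j, rfl⟩
        · exact ⟨i, rfl⟩
    rw [hr, Ideal.mem_span_insert] at hv'
    obtain ⟨b, z, hz, rfl⟩ := hv'
    refine ⟨Submodule.Quotient.mk b, ?_⟩
    rw [← Submodule.Quotient.mk_smul, Submodule.Quotient.eq, smul_eq_mul]
    have : b * κ.f j + z - κ.f j * b = z := by ring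
    rw [this]
    exact hz
  refine κ.acyc_quot (V' := I →₀ (A ⧸ J)) hy h2 j hyj ?_ ?_ (Finsupp.mapRange.linearMap p0) ?_ ?_ ?_
  · intro i hi v
    ext t
    rw [Finsupp.smul_apply, Finsupp.zero_apply]
    obtain ⟨a, ha⟩ := Submodule.Quotient.mk_surjective _ (v t)
    rw [← ha, ← Submodule.Quotient.mk_smul, Submodule.Quotient.mk_eq_zero, smul_eq_mul]
    exact J.mul_mem_right _ (Ideal.subset_span ⟨i, hi, rfl⟩)
  · intro v hv
    ext t
    have ht := DFunLike.congr_fun hv t
    rw [Finsupp.smul_apply, Finsupp.zero_apply] at ht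
    rw [Finsupp.zero_apply]
    obtain ⟨a, ha⟩ := Submodule.Quotient.mk_surjective _ (v t)
    rw [← ha, ← Submodule.Quotient.mk_smul, Submodule.Quotient.mk_eq_zero, smul_eq_mul] at ht
    rw [← ha, Submodule.Quotient.mk_eq_zero]
    exact H.reg j a ht
  · exact Finsupp.mapRange_surjective p0 (map_zero p0) hp0s
  · intro v hv
    have h : ∀ t, ∃ v', v t = κ.f j • v' := fun t => hp0k _ (by
      have := DFunLike.congr_fun hv t
      exact this)
    choose g hg using h
    refine ⟨Finsupp.onFinset v.support (fun t => if v t = 0 then 0 else g t) ?_, ?_⟩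
    · intro t ht
      rw [Finsupp.mem_support_iff]
      intro h0
      rw [if_pos h0] at ht
      exact ht rfl
    · ext t
      rw [Finsupp.smul_apply, Finsupp.onFinset_apply]
      split_ifs with h0
      · rw [h0, smul_zero]
      · exact hg t
  · intro v'
    ext t
    rw [Finsupp.mapRange.linearMap_apply, Finsupp.mapRange_apply, Finsupp.smul_apply, map_smul,
      Finsupp.zero_apply]
    have hfj : algebraMap A B (κ.f j) = 0 := by
      have : κ.f j ∈ RingHom.ker (algebraMap A B) := by
        rw [H.ker]
        exact Ideal.subset_span ⟨j, rfl⟩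
      exact this
    rw [← algebraMap_smul B, hfj, zero_smul]

/-- Modules with a finite projective resolution are acyclic. -/
theorem Kos.CI.acyc_of_res (H : κ.CI B) (hy : ∀ j k, y j * y k = y k * y j) (h2 : (2 : K) ≠ 0)
    (j : Fin c) (hyj : Function.Bijective (y j)) : ∀ (n : ℕ) (N : Type) [AddCommGroup N]
    [Module B N] [Module A N] [Module K N] [IsScalarTower A B N] [IsScalarTower K A N],
    HasRes B n N → κ.Acyc y N := by
  intro n
  induction n with
  | zero =>
    intro N _ _ _ _ _ _ h z _
    have : Subsingleton N := h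
    have e : (LinearMap.id : N →ₗ[A] N) = 0 := by
      ext n
      exact Subsingleton.elim _ _
    have hz := ind_id (A := A) (X := X) (W := W) z
    rw [e] at hz
    refine ⟨0, ?_⟩
    rw [map_zero, ← hz]
    have e0 : (0 : N →ₗ[A] N).restrictScalars K = 0 := rfl
    unfold ind
    rw [e0, LinearMap.rTensor_zero, LinearMap.rTensor_zero]
    rfl
  | succ n ih =>
    intro N _ _ _ _ _ _ h
    obtain ⟨P, _, _, hP, g, hg, hk⟩ := h
    let _ : Module A P := Module.compHom P (algebraMap A B)
    let _ : Module K P := Module.compHom P (algebraMap K B)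
    have : IsScalarTower A B P := ⟨fun a b p => by
      show (a • b) • p = algebraMap A B a • b • p
      rw [Algebra.smul_def, mul_smul]⟩
    have : IsScalarTower K A P := ⟨fun k a p => by
      show algebraMap A B (k • a) • p = algebraMap K B k • algebraMap A B a • p
      rw [Algebra.smul_def, map_mul, mul_smul, ← IsScalarTower.algebraMap_apply]⟩
    have : IsScalarTower K B P := ⟨fun k b p => by
      show (k • b) • p = algebraMap K B k • b • p
      rw [Algebra.smul_def, mul_smul]⟩
    have hPacyc : κ.Acyc y P := by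
      obtain ⟨s, hs⟩ := (Module.projective_def').1 hP
      refine Kos.Acyc.retract (V' := P →₀ B) (H.acyc_free hy h2 j hyj P)
        (s.restrictScalars A) ((Finsupp.linearCombination B (id : P → P)).restrictScalars A) ?_
      ext p
      exact LinearMap.congr_fun hs p
    have hsq : κ.δ y P * κ.δ y P = 0 := by
      rw [κ.δ_sq y hy h2]
      refine Finset.sum_eq_zero fun i _ => ?_
      have : act P (κ.f i ⊗ₜ[K] (1 : Module.End K X)) = 0 := by
        rw [act_tmul]
        have : Algebra.lsmul K K P (κ.f i) = 0 := by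
          ext v
          show κ.f i • v = 0
          have hfi : algebraMap A B (κ.f i) = 0 := by
            have : κ.f i ∈ RingHom.ker (algebraMap A B) := by
              rw [H.ker]
              exact Ideal.subset_span ⟨i, rfl⟩
            exact this
          rw [← algebraMap_smul B, hfi, zero_smul]
        rw [this, TensorProduct.map_zero_left]
      rw [this, TensorProduct.map_zero_left]
    have hgA : ∀ (a : A) (p : P), g (a • p) = a • g p := by
      intro a p
      rw [← algebraMap_smul B a p, map_smul, algebraMap_smul]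
    have hK : κ.Acyc y (LinearMap.ker g) := ih (LinearMap.ker g) hk
    exact Kos.Acyc.of_exact (V := LinearMap.ker g) (V' := P) hK hPacyc hsq
      (g := (LinearMap.ker g).subtype.restrictScalars A) (h := g.restrictScalars A)
      Subtype.val_injective hg (fun p => ⟨fun hp => ⟨⟨p, hp⟩, rfl⟩, by rintro ⟨q, rfl⟩; exact q.2⟩)

end Pool.Agent.HV
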