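import Mathlib

/-!
Regular sequences in a Noetherian local ring: every element is regular modulo the others.
-/

namespace Pool.Agent.HV

open RingTheory.Sequence

section

variable {A : Type} [CommRing A] [IsLocalRing A] [IsNoetherianRing A]

theorem reg_of_isRegular (rs : List A) (h : IsRegular A rs) (j : Fin rs.length) (a : A)
    (ha : rs.get j * a ∈ Ideal.span ((fun i : Fin rs.length => rs.get i) '' {i | i ≠ j})) :
    a ∈ Ideal.span ((fun i : Fin rs.length => rs.get i) '' {i | i ≠ j}) := by
  have h1 : Ideal.span ((fun i : Fin rs.length => rs.get i) '' {i | i ≠ j}) =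
      Ideal.ofList (rs.eraseIdx j) := by
    congr 1
    ext b
    simp only [Set.mem_image, Set.mem_ofPred_eq]
    rw [List.mem_eraseIdx_iff_getElem]
    constructor
    · rintro ⟨i, hi, rfl⟩
      exact ⟨i, i.2, fun h => hi (Fin.ext h), rfl⟩
    · rintro ⟨i, hi, hij, rfl⟩
      exact ⟨⟨i, hi⟩, fun h => hij (congrArg Fin.val h), rfl⟩
  rw [h1] at ha ⊢
  have h2 : List.Perm rs (rs.eraseIdx j ++ [rs.get j]) := by
    refine (List.getElem_cons_eraseIdx_perm j.2).symm.trans ?_
    exact (List.perm_append_singleton _ _).symm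
  have h3 : IsRegular A (rs.eraseIdx j ++ [rs.get j]) := IsLocalRing.isRegular_of_perm h h2
  have h4 := ((isWeaklyRegular_append_iff A _ _).1 h3.toIsWeaklyRegular).2
  rw [isWeaklyRegular_singleton_iff, isSMulRegular_quotient_iff_mem_of_smul_mem] at h4
  have h5 : (Ideal.ofList (rs.eraseIdx j) • ⊤ : Submodule A A) = Ideal.ofList (rs.eraseIdx j) := by
    rw [smul_eq_mul, Ideal.mul_top]
  rw [h5] at h4
  exact h4 a ha

omit [IsLocalRing A] [IsNoetherianRing A] in
theorem ofList_eq_span_range (rs : List A) :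
    Ideal.ofList rs = Ideal.span (Set.range fun i : Fin rs.length => rs.get i) := by
  have h1 : {r | r ∈ rs} = Set.range fun i : Fin rs.length => rs.get i := by
    ext b
    exact List.mem_iff_get
  exact congrArg Ideal.span h1

omit [IsLocalRing A] [IsNoetherianRing A] in
theorem ofList_ne_top (rs : List A) (h : IsRegular A rs) : Ideal.ofList rs ≠ ⊤ := by
  intro h1
  apply h.top_ne_smul
  rw [h1, smul_eq_mul, Ideal.mul_top]

end

section

variable {P0 A : Type} [CommRing P0] [CommRing A] [Algebra P0 A] (M : Submonoid P0)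
  [IsLocalization M A] {c : ℕ}

include M in
/-- The elements can be replaced by elements of the ring. -/
theorem exists_numerators (f : Fin c → A)
    (hreg : ∀ (j : Fin c) (a : A), f j * a ∈ Ideal.span (f '' {i | i ≠ j}) →
      a ∈ Ideal.span (f '' {i | i ≠ j})) :
    ∃ g : Fin c → P0, Ideal.span (Set.range f) =
        Ideal.span (Set.range fun j => algebraMap P0 A (g j)) ∧
      ∀ (j : Fin c) (a : A), algebraMap P0 A (g j) * a ∈
        Ideal.span ((fun j => algebraMap P0 A (g j)) '' {i | i ≠ j}) →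
        a ∈ Ideal.span ((fun j => algebraMap P0 A (g j)) '' {i | i ≠ j}) := by
  have h1 : ∀ j, ∃ (g : P0) (u : Aˣ), algebraMap P0 A g = f j * u := by
    intro j
    obtain ⟨⟨g, s⟩, hg⟩ := IsLocalization.surj M (f j)
    refine ⟨g, (IsLocalization.map_units A s).unit, ?_⟩
    exact hg.symm
  choose g u hgu using h1
  have h2 : ∀ s : Set (Fin c), Ideal.span (f '' s) =
      Ideal.span ((fun j => algebraMap P0 A (g j)) '' s) := by
    intro s
    apply le_antisymm
    · refine Ideal.span_le.2 ?_
      rintro _ ⟨j, hj, rfl⟩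
      have h3 : f j = algebraMap P0 A (g j) * ((u j)⁻¹ : Aˣ) := by
        rw [hgu, mul_assoc, Units.mul_inv, mul_one]
      show f j ∈ _
      rw [h3]
      exact Ideal.mul_mem_right _ _ (Ideal.subset_span ⟨j, hj, rfl⟩)
    · refine Ideal.span_le.2 ?_
      rintro _ ⟨j, hj, rfl⟩
      show algebraMap P0 A (g j) ∈ _
      rw [hgu]
      exact Ideal.mul_mem_right _ _ (Ideal.subset_span ⟨j, hj, rfl⟩)
  refine ⟨g, ?_, ?_⟩
  · have := h2 Set.univ
    rw [Set.image_univ, Set.image_univ] at this
    exact this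
  · intro j a ha
    rw [← h2] at ha ⊢
    rw [hgu, mul_assoc] at ha
    have h3 := Ideal.mul_mem_left _ ((u j)⁻¹ : Aˣ).val (hreg j _ ha)
    rwa [← mul_assoc, Units.inv_mul, one_mul] at h3

end

end Pool.Agent.HV
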